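import Pool.Agent.DPt.CoreK

namespace DPt

open Classical

variable {K : Type*} [Field K]

/-- The abscissas of the simple crossings on the line `(μ, c)`. -/
noncomputable def dx (S : Finset (K × K)) (μ c : K) : Finset K :=
  ((S.filter (fun q => q.1 ≠ μ)).image (fun q => (q.2 - c) / (μ - q.1))).filter
    (fun x => ¬ Triple S μ c x)

lemma cross_iff (S : Finset (K × K)) (μ c x : K) :
    x ∈ (S.filter (fun q => q.1 ≠ μ)).image (fun q => (q.2 - c) / (μ - q.1)) ↔
      Cross S μ c x := by
  rw [Finset.mem_image]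
  constructor
  · rintro ⟨q, hq, rfl⟩
    obtain ⟨hqS, hqμ⟩ := Finset.mem_filter.mp hq
    have hne : μ - q.1 ≠ 0 := sub_ne_zero.mpr (Ne.symm hqμ)
    refine ⟨q, hqS, hqμ, ?_⟩
    field_simp
    ring
  · rintro ⟨q, hq, hqμ, hx⟩
    refine ⟨q, Finset.mem_filter.mpr ⟨hq, hqμ⟩, ?_⟩
    rw [eq_comm, eq_div_iff (sub_ne_zero.mpr (Ne.symm hqμ))]
    linear_combination hx

lemma mem_dx (S : Finset (K × K)) (μ c x : K) :
    x ∈ dx S μ c ↔ Cross S μ c x ∧ ¬ Triple S μ c x := by
  unfold dx
  rw [Finset.mem_filter, cross_iff]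

lemma two_points {q t : K × K} {x x' : K} (hx : x ≠ x') (h1 : q.1 * x + q.2 = t.1 * x + t.2)
    (h2 : q.1 * x' + q.2 = t.1 * x' + t.2) : q = t := by
  have h3 : (q.1 - t.1) * (x - x') = 0 := by linear_combination h1 - h2
  rcases mul_eq_zero.mp h3 with h4 | h4
  · have h5 : q.1 = t.1 := sub_eq_zero.mp h4
    apply Prod.ext h5
    rw [h5] at h1
    exact add_left_cancel h1
  · exact absurd (sub_eq_zero.mp h4) hx

theorem class_bound [CharZero K] (S : Finset (K × K)) (μ : K) (hμ : μ ∈ S.image Prod.fst)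
    (h3 : 3 ≤ (S.image Prod.fst).card) :
    2 * (((S.filter (fun p => p.1 = μ)).image Prod.snd).card -
      ((S.image Prod.fst).card - 2)) ≤
    ∑ c ∈ (S.filter (fun p => p.1 = μ)).image Prod.snd, (dx S μ c).card := by
  obtain ⟨xp, xm, h1, hp, hm⟩ := core_field S μ hμ (by omega)
  set X : Finset K := (S.filter (fun p => p.1 = μ)).image Prod.snd with hX
  have hXmem : ∀ c, c ∈ X ↔ (μ, c) ∈ S := by
    intro c
    simp only [hX, Finset.mem_image, Finset.mem_filter]
    constructor
    · rintro ⟨p, ⟨hp, h1⟩, h3⟩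
      have : p = (μ, c) := Prod.ext h1 h3
      rwa [this] at hp
    · intro h
      exact ⟨(μ, c), ⟨h, rfl⟩, rfl⟩
  by_cases hsp : ∃ c0 ∈ X, xp c0 = xm c0
  · -- all crossings on one line coincide
    obtain ⟨c0, hc0, heq⟩ := hsp
    have hc0S := (hXmem c0).mp hc0
    have hall := (h1 c0 hc0S).2.2 heq
    set x0 := xp c0 with hx0
    have hthru : ∀ q ∈ S, q.1 ≠ μ → μ * x0 + c0 = q.1 * x0 + q.2 := by
      intro q hq hqμ
      have hcr : Cross S μ c0 ((q.2 - c0) / (μ - q.1)) :=
        (cross_iff S μ c0 _).mp (Finset.mem_image_of_mem _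
          (Finset.mem_filter.mpr ⟨hq, hqμ⟩))
      have h4 := hall _ hcr
      have hne : μ - q.1 ≠ 0 := sub_ne_zero.mpr (Ne.symm hqμ)
      rw [div_eq_iff hne] at h4
      linear_combination -h4
    -- two further slopes
    have hcard2 : 1 < ((S.image Prod.fst).erase μ).card := by
      rw [Finset.card_erase_of_mem hμ]; omega
    obtain ⟨m1, hm1, m2, hm2, hm12⟩ := Finset.one_lt_card.mp hcard2
    obtain ⟨hm1μ, hm1'⟩ := Finset.mem_erase.mp hm1
    obtain ⟨hm2μ, hm2'⟩ := Finset.mem_erase.mp hm2
    obtain ⟨q1, hq1, rfl⟩ := Finset.mem_image.mp hm1'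
    obtain ⟨q2, hq2, rfl⟩ := Finset.mem_image.mp hm2'
    have hge : ∀ c ∈ X, c ≠ c0 → 2 ≤ (dx S μ c).card := by
      intro c hc hcc
      have hdbl : ∀ q ∈ S, q.1 ≠ μ → (q.2 - c) / (μ - q.1) ∈ dx S μ c := by
        intro q hq hqμ
        rw [mem_dx]
        refine ⟨(cross_iff S μ c _).mp (Finset.mem_image_of_mem _
          (Finset.mem_filter.mpr ⟨hq, hqμ⟩)), ?_⟩
        rintro ⟨s, hs, t, ht, hsμ, htμ, hst, hxs, hxt⟩
        set x := (q.2 - c) / (μ - q.1) with hx
        have hxx0 : x ≠ x0 := by
          intro h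
          rw [h] at hxs
          have := hthru s hs hsμ
          exact hcc (add_left_cancel (hxs.trans this.symm))
        exact hst (two_points hxx0 (hxs.symm.trans hxt)
          ((hthru s hs hsμ).symm.trans (hthru t ht htμ)))
      have hne12 : (q1.2 - c) / (μ - q1.1) ≠ (q2.2 - c) / (μ - q2.1) := by
        intro h
        have e1 : μ - q1.1 ≠ 0 := sub_ne_zero.mpr (Ne.symm hm1μ)
        have e2 : μ - q2.1 ≠ 0 := sub_ne_zero.mpr (Ne.symm hm2μ)
        set x := (q1.2 - c) / (μ - q1.1) with hx
        have hx1 : μ * x + c = q1.1 * x + q1.2 := by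
          have : x * (μ - q1.1) = q1.2 - c := by rw [hx, div_mul_cancel₀ _ e1]
          linear_combination this
        have hx2 : μ * x + c = q2.1 * x + q2.2 := by
          have : x * (μ - q2.1) = q2.2 - c := by rw [h, div_mul_cancel₀ _ e2]
          linear_combination this
        have hxx0 : x ≠ x0 := by
          intro h
          rw [h] at hx1
          have := hthru q1 hq1 hm1μ
          exact hcc (add_left_cancel (hx1.trans this.symm))
        have := two_points hxx0 (hx1.symm.trans hx2)
          ((hthru q1 hq1 hm1μ).symm.trans (hthru q2 hq2 hm2μ))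
        exact hm12 (congrArg Prod.fst this)
      have hsub : ({(q1.2 - c) / (μ - q1.1), (q2.2 - c) / (μ - q2.1)} : Finset K) ⊆
          dx S μ c := by
        intro x hx
        rcases Finset.mem_insert.mp hx with rfl | hx
        · exact hdbl q1 hq1 hm1μ
        · rw [Finset.mem_singleton.mp hx]; exact hdbl q2 hq2 hm2μ
      have := Finset.card_le_card hsub
      rwa [Finset.card_pair hne12] at this
    calc 2 * (X.card - ((S.image Prod.fst).card - 2)) ≤ 2 * (X.card - 1) := by omega
      _ = ∑ _c ∈ X.erase c0, 2 := by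
          rw [Finset.sum_const, Finset.card_erase_of_mem hc0, smul_eq_mul]; ring
      _ ≤ ∑ c ∈ X.erase c0, (dx S μ c).card :=
          Finset.sum_le_sum (fun c hc => hge c (Finset.mem_erase.mp hc).2
            (Finset.mem_erase.mp hc).1)
      _ ≤ ∑ c ∈ X, (dx S μ c).card :=
          Finset.sum_le_sum_of_subset (Finset.erase_subset _ _)
  · push Not at hsp
    have hpt : ∀ c ∈ X, (if Triple S μ c (xp c) then 0 else 1) +
        (if Triple S μ c (xm c) then 0 else 1) ≤ (dx S μ c).card := by
      intro c hc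
      obtain ⟨hcp, hcm, _⟩ := h1 c ((hXmem c).mp hc)
      have hne := hsp c hc
      by_cases htp : Triple S μ c (xp c)
      · rw [if_pos htp, zero_add]
        by_cases htm : Triple S μ c (xm c)
        · rw [if_pos htm]; exact Nat.zero_le _
        · rw [if_neg htm, Nat.one_le_iff_ne_zero, ← Nat.pos_iff_ne_zero, Finset.card_pos]
          exact ⟨xm c, (mem_dx S μ c _).mpr ⟨hcm, htm⟩⟩
      · rw [if_neg htp]
        by_cases htm : Triple S μ c (xm c)
        · rw [if_pos htm, add_zero, Nat.one_le_iff_ne_zero, ← Nat.pos_iff_ne_zero,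
            Finset.card_pos]
          exact ⟨xp c, (mem_dx S μ c _).mpr ⟨hcp, htp⟩⟩
        · rw [if_neg htm]
          have hsub : ({xp c, xm c} : Finset K) ⊆ dx S μ c := by
            intro x hx
            rcases Finset.mem_insert.mp hx with rfl | hx
            · exact (mem_dx S μ c _).mpr ⟨hcp, htp⟩
            · rw [Finset.mem_singleton.mp hx]; exact (mem_dx S μ c _).mpr ⟨hcm, htm⟩
          have := Finset.card_le_card hsub
          rwa [Finset.card_pair hne] at this
    have hcount : ∀ f : K → K, ∑ c ∈ X, (if Triple S μ c (f c) then 0 else 1) =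
        X.card - (X.filter (fun c => Triple S μ c (f c))).card := by
      intro f
      have h4 : ∑ c ∈ X, (if Triple S μ c (f c) then 0 else 1) =
          (X.filter (fun c => ¬ Triple S μ c (f c))).card := by
        rw [Finset.card_filter]
        apply Finset.sum_congr rfl
        intro c _
        by_cases h : Triple S μ c (f c)
        · rw [if_pos h, if_neg (not_not.mpr h)]
        · rw [if_neg h, if_pos h]
      have h5 := Finset.card_filter_add_card_filter_not (s := X)
        (fun c => Triple S μ c (f c))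
      rw [h4]
      omega
    have hsum := Finset.sum_le_sum hpt
    rw [Finset.sum_add_distrib, hcount xp, hcount xm] at hsum
    omega

/-- If no crossing on the class is simple then the class is small. -/
theorem class_bound' [CharZero K] (S : Finset (K × K)) (μ : K) (hμ : μ ∈ S.image Prod.fst)
    (h2 : 2 ≤ (S.image Prod.fst).card) (hno : ∀ c, (μ, c) ∈ S → dx S μ c = ∅) :
    ((S.filter (fun p => p.1 = μ)).image Prod.snd).card + 2 ≤ (S.image Prod.fst).card := by
  obtain ⟨xp, xm, h1, hp, hm⟩ := core_field S μ hμ h2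
  have : ((S.filter (fun p => p.1 = μ)).image Prod.snd).filter
      (fun c => Triple S μ c (xp c)) = (S.filter (fun p => p.1 = μ)).image Prod.snd := by
    apply Finset.filter_true_of_mem
    intro c hc
    obtain ⟨p, hp, rfl⟩ := Finset.mem_image.mp hc
    obtain ⟨hpS, hp1⟩ := Finset.mem_filter.mp hp
    have hcS : (μ, p.2) ∈ S := by rw [← hp1]; exact hpS
    by_contra hcon
    have h4 : xp p.2 ∈ dx S μ p.2 := (mem_dx _ _ _ _).mpr ⟨(h1 _ hcS).1, hcon⟩
    rw [hno _ hcS] at h4
    exact absurd h4 (Finset.notMem_empty _)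
  rw [this] at hp
  exact hp

end DPt
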