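import Mathlib

open scoped LinearAlgebra.Projectivization

namespace DPt

open Projectivization Matrix

variable {K : Type*} [Field K]

lemma orth_mk (L : ℙ K (Fin 3 → K)) (v : Fin 3 → K) (hv : v ≠ 0) :
    L.orthogonal (Projectivization.mk K v hv) ↔ L.rep ⬝ᵥ v = 0 := by
  conv_lhs => rw [← L.mk_rep]
  exact Projectivization.orthogonal_mk L.rep_nonzero hv

lemma orth_rep (L p : ℙ K (Fin 3 → K)) : L.orthogonal p ↔ L.rep ⬝ᵥ p.rep = 0 := by
  conv_lhs => rw [← p.mk_rep]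
  exact orth_mk L p.rep p.rep_nonzero

lemma eq_of_dot (L M : ℙ K (Fin 3 → K)) (c : K)
    (h : ∀ v : Fin 3 → K, L.rep ⬝ᵥ v = c * (M.rep ⬝ᵥ v)) : L = M := by
  have h1 : L.rep = c • M.rep := by
    have h2 : ∀ v : Fin 3 → K, (L.rep - c • M.rep) ⬝ᵥ v = 0 := by
      intro v
      rw [sub_dotProduct, smul_dotProduct, h v, smul_eq_mul, sub_self]
    have h3 := dotProduct_eq_zero (L.rep - c • M.rep) h2
    exact sub_eq_zero.mp h3
  rw [← L.mk_rep, ← M.mk_rep]
  rw [Projectivization.mk_eq_mk_iff']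
  exact ⟨c, h1.symm⟩

theorem exists_chart [Infinite K]
    (B : Finset (ℙ K (Fin 3 → K))) (H : ℙ K (Fin 3 → K)) (hH : H ∉ B) :
    ∃ (g : ℙ K (Fin 3 → K) → K × K) (pt : K → ℙ K (Fin 3 → K))
      (aff : K × K → ℙ K (Fin 3 → K)),
      Set.InjOn g B ∧ Function.Injective pt ∧ Function.Injective aff ∧
      (∀ m, H.orthogonal (pt m)) ∧
      (∀ L ∈ B, ∀ m, L.orthogonal (pt m) ↔ (g L).1 = m) ∧
      (∀ p, H.orthogonal p → (∃ L ∈ B, L.orthogonal p) → ∃ m, p = pt m) ∧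
      (∀ z, ¬ H.orthogonal (aff z)) ∧
      (∀ p, ¬ H.orthogonal p → ∃ z, p = aff z) ∧
      (∀ L ∈ B, ∀ x y, L.orthogonal (aff (x, y)) ↔ y = (g L).1 * x + (g L).2) := by
  classical
  set h : Fin 3 → K := H.rep with hh
  have hh0 : h ≠ 0 := H.rep_nonzero
  obtain ⟨o, ho⟩ : ∃ o : Fin 3 → K, h ⬝ᵥ o ≠ 0 := by
    by_contra hcon
    push Not at hcon
    exact hh0 (dotProduct_eq_zero h hcon)
  -- the kernel
  let f : (Fin 3 → K) →ₗ[K] K :=
    { toFun := fun v => h ⬝ᵥ v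
      map_add' := fun v w => dotProduct_add h v w
      map_smul' := fun c v => by simp }
  have hf : ∀ v, f v = h ⬝ᵥ v := fun v => rfl
  have hf0 : f ≠ 0 := by
    intro h1
    apply ho
    rw [← hf, h1]; rfl
  have hrank : Module.finrank K (LinearMap.ker f) = 2 := by
    have h1 := Module.Dual.finrank_ker_add_one_of_ne_zero (f := f) hf0
    rw [Module.finrank_fin_fun] at h1
    omega
  let b := Module.finBasisOfFinrankEq K (LinearMap.ker f) hrank
  set u : Fin 3 → K := (b 0 : Fin 3 → K) with hu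
  set w0 : Fin 3 → K := (b 1 : Fin 3 → K) with hw0
  have hhu : h ⬝ᵥ u = 0 := (b 0).2
  have hhw0 : h ⬝ᵥ w0 = 0 := (b 1).2
  have hker : ∀ v, h ⬝ᵥ v = 0 → ∃ β γ : K, v = β • u + γ • w0 := by
    intro v hv
    have h1 := b.sum_repr ⟨v, hv⟩
    rw [Fin.sum_univ_two] at h1
    refine ⟨b.repr ⟨v, hv⟩ 0, b.repr ⟨v, hv⟩ 1, ?_⟩
    have h2 := congrArg (Subtype.val) h1
    simpa using h2.symm
  have hind : ∀ β γ : K, β • u + γ • w0 = 0 → β = 0 ∧ γ = 0 := by
    intro β γ h1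
    have h2 := (Fintype.linearIndependent_iff.mp b.linearIndependent) ![β, γ] (by
      rw [Fin.sum_univ_two]
      apply Subtype.ext
      simpa using h1)
    exact ⟨h2 0, h2 1⟩
  -- no line of B contains both directions
  have hB : ∀ L ∈ B, ¬ (L.rep ⬝ᵥ u = 0 ∧ L.rep ⬝ᵥ w0 = 0) := by
    rintro L hL ⟨h1, h2⟩
    apply hH
    have : L = H := by
      apply eq_of_dot L H (L.rep ⬝ᵥ o / (h ⬝ᵥ o))
      intro v
      have h3 : h ⬝ᵥ (v - (h ⬝ᵥ v / (h ⬝ᵥ o)) • o) = 0 := by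
        rw [dotProduct_sub, dotProduct_smul, smul_eq_mul, div_mul_cancel₀ _ ho, sub_self]
      obtain ⟨β, γ, h4⟩ := hker _ h3
      have h5 : v = (h ⬝ᵥ v / (h ⬝ᵥ o)) • o + (β • u + γ • w0) := by
        rw [← h4]; abel
      conv_lhs => rw [h5]
      rw [dotProduct_add, dotProduct_add, dotProduct_smul, dotProduct_smul, dotProduct_smul,
        h1, h2]
      simp only [smul_eq_mul, mul_zero, add_zero]
      rw [← hh]
      ring
    rw [← this]; exact hL
  -- a direction avoided by B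
  obtain ⟨t, ht⟩ := Infinite.exists_notMem_finset
    (B.image (fun L => -(L.rep ⬝ᵥ w0) / (L.rep ⬝ᵥ u)))
  set w : Fin 3 → K := w0 + t • u with hw
  have hhw : h ⬝ᵥ w = 0 := by
    rw [hw, dotProduct_add, dotProduct_smul, hhw0, hhu]; simp
  have hBw : ∀ L ∈ B, L.rep ⬝ᵥ w ≠ 0 := by
    intro L hL h1
    rw [hw, dotProduct_add, dotProduct_smul, smul_eq_mul] at h1
    by_cases h2 : L.rep ⬝ᵥ u = 0
    · apply hB L hL
      rw [h2, mul_zero, add_zero] at h1
      exact ⟨h2, h1⟩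
    · apply ht
      rw [Finset.mem_image]
      refine ⟨L, hL, ?_⟩
      rw [div_eq_iff h2]
      linear_combination -h1
  have hindw : ∀ β γ : K, β • u + γ • w = 0 → β = 0 ∧ γ = 0 := by
    intro β γ h1
    have h2 : (β + γ * t) • u + γ • w0 = 0 := by
      rw [← h1, hw]
      rw [smul_add, smul_smul, add_smul]
      abel
    obtain ⟨h3, h4⟩ := hind _ _ h2
    rw [h4] at h3
    exact ⟨by simpa using h3, h4⟩
  have hspan : ∀ v, ∃ α β γ : K, v = α • o + (β • u + γ • w) := by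
    intro v
    have h3 : h ⬝ᵥ (v - (h ⬝ᵥ v / (h ⬝ᵥ o)) • o) = 0 := by
      rw [dotProduct_sub, dotProduct_smul, smul_eq_mul, div_mul_cancel₀ _ ho, sub_self]
    obtain ⟨β, γ, h4⟩ := hker _ h3
    refine ⟨h ⬝ᵥ v / (h ⬝ᵥ o), β - γ * t, γ, ?_⟩
    have h5 : v = (h ⬝ᵥ v / (h ⬝ᵥ o)) • o + (β • u + γ • w0) := by
      rw [← h4]; abel
    conv_lhs => rw [h5]
    rw [hw, smul_add, smul_smul, sub_smul]
    abel
  have hdot : ∀ (l : Fin 3 → K) (α β γ : K), l ⬝ᵥ (α • o + (β • u + γ • w)) =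
      α * (l ⬝ᵥ o) + β * (l ⬝ᵥ u) + γ * (l ⬝ᵥ w) := by
    intro l α β γ
    rw [dotProduct_add, dotProduct_add, dotProduct_smul, dotProduct_smul, dotProduct_smul]
    simp only [smul_eq_mul]
    ring
  have hpt0 : ∀ m : K, u + m • w ≠ 0 := by
    intro m h1
    have h2 := hindw 1 m (by rw [one_smul]; exact h1)
    exact one_ne_zero h2.1
  have haff0 : ∀ z : K × K, o + (z.1 • u + z.2 • w) ≠ 0 := by
    intro z h1
    apply ho
    have h2 := hdot h 1 z.1 z.2
    rw [one_smul, h1, hhu, hhw] at h2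
    simpa using h2.symm
  set g : ℙ K (Fin 3 → K) → K × K := fun L =>
    (-(L.rep ⬝ᵥ u) / (L.rep ⬝ᵥ w), -(L.rep ⬝ᵥ o) / (L.rep ⬝ᵥ w)) with hg
  refine ⟨g, fun m => Projectivization.mk K (u + m • w) (hpt0 m),
    fun z => Projectivization.mk K (o + (z.1 • u + z.2 • w)) (haff0 z), ?_, ?_, ?_, ?_, ?_, ?_,
    ?_, ?_, ?_⟩
  · intro L hL M hM hLM
    have hL' := hBw L hL
    have hM' := hBw M hM
    have h1 : -(L.rep ⬝ᵥ u) / (L.rep ⬝ᵥ w) = -(M.rep ⬝ᵥ u) / (M.rep ⬝ᵥ w) :=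
      congrArg Prod.fst hLM
    have h2 : -(L.rep ⬝ᵥ o) / (L.rep ⬝ᵥ w) = -(M.rep ⬝ᵥ o) / (M.rep ⬝ᵥ w) :=
      congrArg Prod.snd hLM
    rw [div_eq_div_iff hL' hM'] at h1 h2
    apply eq_of_dot L M ((L.rep ⬝ᵥ w) / (M.rep ⬝ᵥ w))
    intro v
    obtain ⟨α, β, γ, hv⟩ := hspan v
    rw [hv, hdot, hdot]
    rw [div_mul_eq_mul_div, eq_div_iff hM']
    linear_combination (-α) * h2 - β * h1
  · intro m m' hmm
    simp only at hmm
    rw [Projectivization.mk_eq_mk_iff'] at hmm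
    obtain ⟨c, hc⟩ := hmm
    have h1 : (c - 1) • u + (c * m' - m) • w = 0 := by
      have h2 : (c - 1) • u + (c * m' - m) • w = c • (u + m' • w) - (u + m • w) := by
        module
      rw [h2]; exact sub_eq_zero.mpr hc
    obtain ⟨h2, h3⟩ := hindw _ _ h1
    have h4 : c = 1 := by linear_combination h2
    rw [h4] at h3
    linear_combination -h3
  · intro z z' hzz
    simp only at hzz
    rw [Projectivization.mk_eq_mk_iff'] at hzz
    obtain ⟨c, hc⟩ := hzz
    have h1 := congrArg (fun v => h ⬝ᵥ v) hc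
    have h2 := hdot h 1 z.1 z.2
    have h3 := hdot h 1 z'.1 z'.2
    rw [one_smul, hhu, hhw] at h2 h3
    rw [dotProduct_smul, h2, h3, smul_eq_mul] at h1
    have hc1 : c = 1 := by
      have : (c - 1) * (h ⬝ᵥ o) = 0 := by linear_combination h1
      rcases mul_eq_zero.mp this with h4 | h4
      · exact sub_eq_zero.mp h4
      · exact absurd h4 ho
    rw [hc1, one_smul] at hc
    have h4 : (z'.1 - z.1) • u + (z'.2 - z.2) • w = 0 := by
      have h5 : (z'.1 - z.1) • u + (z'.2 - z.2) • w =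
          (o + (z'.1 • u + z'.2 • w)) - (o + (z.1 • u + z.2 • w)) := by module
      rw [h5]; exact sub_eq_zero.mpr hc
    obtain ⟨h5, h6⟩ := hindw _ _ h4
    exact Prod.ext (sub_eq_zero.mp h5).symm (sub_eq_zero.mp h6).symm
  · intro m
    rw [orth_mk, ← hh, dotProduct_add, dotProduct_smul, hhu, hhw]
    simp
  · intro L hL m
    have hL' := hBw L hL
    rw [orth_mk, dotProduct_add, dotProduct_smul, smul_eq_mul]
    simp only [hg]
    rw [div_eq_iff hL']
    constructor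
    · intro h1; linear_combination -h1
    · intro h1; linear_combination -h1
  · rintro p hp ⟨L, hL, hLp⟩
    have hL' := hBw L hL
    rw [orth_rep] at hp hLp
    obtain ⟨α, β, γ, hv⟩ := hspan p.rep
    rw [hv, hdot, ← hh, hhu, hhw] at hp
    have hα : α = 0 := by
      have : α * (h ⬝ᵥ o) = 0 := by linear_combination hp
      rcases mul_eq_zero.mp this with h1 | h1
      · exact h1
      · exact absurd h1 ho
    rw [hv, hdot, hα] at hLp
    have hβ : β ≠ 0 := by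
      intro hβ
      rw [hβ] at hLp
      have h1 : γ * (L.rep ⬝ᵥ w) = 0 := by linear_combination hLp
      rcases mul_eq_zero.mp h1 with h2 | h2
      · apply p.rep_nonzero
        rw [hv, hα, hβ, h2]; simp
      · exact hL' h2
    refine ⟨γ / β, ?_⟩
    conv_lhs => rw [← p.mk_rep]
    rw [Projectivization.mk_eq_mk_iff']
    refine ⟨β, ?_⟩
    rw [hv, hα, smul_add, smul_smul, mul_div_cancel₀ _ hβ]
    simp
  · intro z h1
    rw [orth_mk, ← hh] at h1
    have h2 := hdot h 1 z.1 z.2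
    rw [one_smul, h1, hhu, hhw] at h2
    apply ho
    simpa using h2.symm
  · intro p hp
    rw [orth_rep] at hp
    obtain ⟨α, β, γ, hv⟩ := hspan p.rep
    rw [hv, hdot, ← hh, hhu, hhw] at hp
    have hα : α ≠ 0 := by
      intro hα
      apply hp
      rw [hα]; ring
    refine ⟨(β / α, γ / α), ?_⟩
    conv_lhs => rw [← p.mk_rep]
    rw [Projectivization.mk_eq_mk_iff']
    refine ⟨α, ?_⟩
    rw [hv]
    simp only [smul_add, smul_smul]
    rw [mul_div_cancel₀ _ hα, mul_div_cancel₀ _ hα]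
  · intro L hL x y
    have hL' := hBw L hL
    rw [orth_mk]
    have h1 := hdot L.rep 1 x y
    rw [one_smul] at h1
    simp only [hg]
    rw [h1]
    have h2 : -(L.rep ⬝ᵥ u) / (L.rep ⬝ᵥ w) * x + -(L.rep ⬝ᵥ o) / (L.rep ⬝ᵥ w) =
        (-(L.rep ⬝ᵥ u) * x - (L.rep ⬝ᵥ o)) / (L.rep ⬝ᵥ w) := by
      field_simp
      ring
    rw [h2, eq_div_iff hL']
    constructor
    · intro h3; linear_combination h3
    · intro h3; linear_combination h3

end DPt
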