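import Mathlib

universe u

namespace DPt

open Cardinal

theorem countable_field_embedding (F : Type u) [Field F] [CharZero F] [Countable F] :
    Nonempty (F →+* ℂ) := by
  set P := MvPolynomial ℝ F with hPdef
  set Q := FractionRing P with hQdef
  set L := AlgebraicClosure Q with hLdef
  have hP : #P = (𝔠 : Cardinal.{u}) := by
    rw [hPdef, MvPolynomial.cardinalMk_eq_max_lift]
    have h1 : Cardinal.lift.{0} #F ≤ ℵ₀ := by
      simp
    have h2 : Cardinal.lift.{u} #ℝ = (𝔠 : Cardinal.{u}) := by
      rw [Cardinal.mk_real, Cardinal.lift_continuum]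
    have h3 : ℵ₀ ≤ (𝔠 : Cardinal.{u}) := Cardinal.aleph0_le_continuum
    rw [h2, max_eq_right (le_trans h1 h3), max_eq_left h3]
  have hQ : #Q = (𝔠 : Cardinal.{u}) := by
    rw [← hP]
    exact Cardinal.mk_fractionRing P
  have hL : #L = (𝔠 : Cardinal.{u}) := by
    apply le_antisymm
    · have h1 := Algebra.IsAlgebraic.cardinalMk_le_max Q L
      rw [hQ] at h1
      have h3 : ℵ₀ ≤ (𝔠 : Cardinal.{u}) := Cardinal.aleph0_le_continuum
      rwa [max_eq_left h3] at h1
    · rw [← hQ]
      exact Cardinal.mk_le_of_injective (algebraMap Q L).injective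
  let ι : F →+* L := (algebraMap Q L).comp ((algebraMap P Q).comp MvPolynomial.C)
  have : CharZero L := charZero_of_injective_ringHom ι.injective
  have hK : ℵ₀ < #L := by
    rw [hL]
    exact Cardinal.aleph0_lt_continuum
  have heq : Nonempty (L ≃ ℂ) := by
    apply Cardinal.lift_mk_eq'.1
    rw [hL, Cardinal.mk_complex]
    simp
  obtain ⟨e⟩ := IsAlgClosed.ringEquiv_of_equiv_of_charZero hK heq
  exact ⟨(e : L →+* ℂ).comp ι⟩

theorem exists_subfield_embedding {K : Type*} [Field K] [CharZero K] (T : Finset K) :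
    ∃ F : Subfield K, (∀ t ∈ T, t ∈ F) ∧ Nonempty (F →+* ℂ) := by
  refine ⟨Subfield.closure (T : Set K), fun t ht => Subfield.subset_closure ht, ?_⟩
  have : Countable (Subfield.closure (T : Set K)) := by
    rw [← Cardinal.mk_le_aleph0_iff]
    refine le_trans (Subfield.cardinalMk_closure_le_max _) ?_
    rw [max_le_iff]
    refine ⟨?_, le_rfl⟩
    exact Cardinal.mk_le_aleph0
  exact countable_field_embedding _

end DPt
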