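import Mathlib

namespace DPt

theorem card_lt_of_no_cycle {J X : Type} [Fintype J] [Fintype X] [Nonempty J]
    (e : X → J × J) (he : ∀ x, (e x).1 ≠ (e x).2)
    (hno : ∀ (r : ℕ) [NeZero r], 2 ≤ r → ∀ (t : ZMod r → J) (c : ZMod r → X),
      Function.Injective t → Function.Injective c →
      (∀ s, e (c s) = (t s, t (s + 1)) ∨ e (c s) = (t (s + 1), t s)) → False) :
    Fintype.card X + 1 ≤ Fintype.card J := by
  classical
  set f : X → Sym2 J := fun x => s((e x).1, (e x).2) with hf
  -- equality of labels in terms of pairs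
  have hpair : ∀ x (p q : J), f x = s(p, q) → e x = (p, q) ∨ e x = (q, p) := by
    intro x p q h
    simp only [hf] at h
    rcases Sym2.eq_iff.mp h with ⟨h1, h2⟩ | ⟨h1, h2⟩
    · exact Or.inl (Prod.ext h1 h2)
    · exact Or.inr (Prod.ext h1 h2)
  -- no double edges
  have hfinj : Function.Injective f := by
    intro x x' hxx
    by_contra hne
    have h2 : f x' = s((e x).1, (e x).2) := hxx.symm
    refine hno 2 le_rfl ![(e x).1, (e x).2] ![x, x'] ?_ ?_ ?_
    · intro i j hij
      fin_cases i <;> fin_cases j
      · rfl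
      · exact absurd hij (he x)
      · exact absurd hij.symm (he x)
      · rfl
    · intro i j hij
      fin_cases i <;> fin_cases j
      · rfl
      · exact absurd hij hne
      · exact absurd hij.symm hne
      · rfl
    · intro i
      fin_cases i
      · exact Or.inl rfl
      · rcases hpair x' _ _ h2 with h3 | h3
        · exact Or.inr h3
        · exact Or.inl h3
  set G : SimpleGraph J := SimpleGraph.fromEdgeSet (Set.range f) with hG
  have hadj : ∀ p q : J, G.Adj p q ↔ (∃ x, f x = s(p, q)) ∧ p ≠ q := by
    intro p q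
    rw [hG, SimpleGraph.fromEdgeSet_adj]
    exact Iff.rfl
  have hacyc : G.IsAcyclic := by
    rw [SimpleGraph.isAcyclic_iff_free_cycleGraph]
    intro n hn hcopy
    obtain ⟨φ⟩ := hcopy
    obtain ⟨m, rfl⟩ : ∃ m, n = m + 1 := ⟨n - 1, by omega⟩
    set t : ZMod (m + 1) → J := fun s => φ.toHom s with ht
    have htinj : Function.Injective t := φ.injective'
    have hone : (1 : ZMod (m + 1)) ≠ 0 := by
      have : Fact (1 < m + 1) := ⟨by omega⟩
      exact one_ne_zero
    have hstep : ∀ s : ZMod (m + 1), ∃ x, f x = s(t s, t (s + 1)) := by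
      intro s
      have h1 : (SimpleGraph.cycleGraph (m + 1)).Adj s (s + 1 : ZMod (m + 1)) := by
        rw [SimpleGraph.cycleGraph_eq_circulantGraph]
        rw [SimpleGraph.circulantGraph, SimpleGraph.fromRel_adj]
        refine ⟨?_, Or.inr ?_⟩
        · intro h
          apply hone
          have h2 : s + 1 = s + 0 := by rw [add_zero]; exact h.symm
          exact add_left_cancel h2
        · show (s + 1 : ZMod (m + 1)) - s ∈ ({1} : Set (ZMod (m + 1)))
          rw [add_sub_cancel_left]
          exact Set.mem_singleton _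
      have h2 := φ.toHom.map_adj h1
      exact ((hadj _ _).mp h2).1
    choose c hc using hstep
    refine hno (m + 1) (by omega) t c htinj ?_ ?_
    · intro s s' hss
      have h1 : s(t s, t (s + 1)) = s(t s', t (s' + 1)) := by
        rw [← hc s, ← hc s', hss]
      rcases Sym2.eq_iff.mp h1 with ⟨h2, _⟩ | ⟨h2, h3⟩
      · exact htinj h2
      · exfalso
        have h4 := htinj h2
        have h5 := htinj h3
        have h6 : (2 : ZMod (m + 1)) = 0 := by
          have h7 : s' + 1 + 1 = s' := by rw [← h4, h5]
          have h8 : s' + (1 + 1) = s' + 0 := by rw [← add_assoc, add_zero]; exact h7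
          have h9 := add_left_cancel h8
          rw [← one_add_one_eq_two]; exact h9
        have h7 : ((2 : ℕ) : ZMod (m + 1)) = 0 := by exact_mod_cast h6
        rw [ZMod.natCast_eq_zero_iff] at h7
        have := Nat.le_of_dvd two_pos h7
        omega
    · intro s
      exact hpair _ _ _ (hc s)
  obtain ⟨T, hGT, _, hT⟩ := (SimpleGraph.connected_top (V := J)).exists_isTree_le_of_le_of_isAcyclic
    (le_top : G ≤ ⊤) hacyc
  have hcard := hT.card_edgeFinset
  have h1 : Fintype.card X ≤ T.edgeFinset.card := by
    rw [← Finset.card_univ]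
    apply Finset.card_le_card_of_injOn f
    · intro x _
      rw [Finset.mem_coe, SimpleGraph.mem_edgeFinset]
      apply SimpleGraph.edgeSet_mono hGT
      show s((e x).1, (e x).2) ∈ G.edgeSet
      rw [SimpleGraph.mem_edgeSet, hadj]
      exact ⟨⟨x, rfl⟩, he x⟩
    · exact hfinj.injOn
  omega

end DPt
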