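import Mathlib

namespace DPt

theorem exists_generic (C : Set ℂ) (hC : C.Countable) :
    ∃ v : ℂ, v ≠ 0 ∧ ∀ α ∈ C, α ≠ 0 → (v * α).re ≠ 0 ∧ (v * α).im ≠ 0 := by
  have h1 : ((fun α : ℂ => α.re / α.im) '' C ∪ (fun α : ℂ => -α.im / α.re) '' C).Countable :=
    (hC.image _).union (hC.image _)
  obtain ⟨t, ht⟩ := (h1.dense_compl ℝ).nonempty
  have ht1 : ∀ α ∈ C, α.re / α.im ≠ t := fun α hα h => ht (Or.inl ⟨α, hα, h⟩)
  have ht2 : ∀ α ∈ C, -α.im / α.re ≠ t := fun α hα h => ht (Or.inr ⟨α, hα, h⟩)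
  refine ⟨⟨1, t⟩, ?_, ?_⟩
  · intro h
    have := congrArg Complex.re h
    simp at this
  · intro α hα h0
    constructor
    · intro h
      simp only [Complex.mul_re, one_mul] at h
      by_cases him : α.im = 0
      · apply h0
        apply Complex.ext
        · rw [him] at h; simpa using h
        · simpa using him
      · apply ht1 α hα
        rw [div_eq_iff him]; linarith
    · intro h
      simp only [Complex.mul_im, one_mul] at h
      by_cases hre : α.re = 0
      · apply h0
        apply Complex.ext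
        · simpa using hre
        · rw [hre] at h; simpa using h
      · apply ht2 α hα
        rw [div_eq_iff hre]; linarith

lemma exists_sqrt (z : ℂ) : ∃ w : ℂ, w ^ 2 = z :=
  IsAlgClosed.exists_pow_nat_eq z two_pos

/-- A chosen square root. -/
noncomputable def sq (z : ℂ) : ℂ := Classical.choose (exists_sqrt z)

lemma sq_sq (z : ℂ) : sq z ^ 2 = z := Classical.choose_spec (exists_sqrt z)

lemma sq_ne_zero {z : ℂ} (hz : z ≠ 0) : sq z ≠ 0 := by
  intro h
  apply hz
  rw [← sq_sq z, h]; simp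

/-- `Re (v ^ 2 * δ)` as a product. -/
lemma re_sq_mul (v δ : ℂ) : (v ^ 2 * δ).re =
    (v * ((1 + Complex.I) * sq δ)).re * (v * ((1 + Complex.I) * sq δ)).im := by
  conv_lhs => rw [← sq_sq δ]
  simp only [pow_two, Complex.mul_re, Complex.mul_im, Complex.add_re, Complex.add_im,
    Complex.one_re, Complex.one_im, Complex.I_re, Complex.I_im]
  ring

/-- A nonzero number `w` with `w ^ 2 * Q` real. -/
noncomputable def tw (Q : ℂ) : ℂ := if Q = 0 then 1 else sq (starRingEnd ℂ Q)

lemma tw_ne_zero (Q : ℂ) : tw Q ≠ 0 := by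
  unfold tw
  split_ifs with h
  · exact one_ne_zero
  · exact sq_ne_zero (by simpa using h)

lemma tw_im (Q : ℂ) : (tw Q ^ 2 * Q).im = 0 := by
  unfold tw
  split_ifs with h
  · rw [h]; simp
  · rw [sq_sq, ← Complex.normSq_eq_conj_mul_self]
    simp

end DPt
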