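import Pool.Agent.DPt.Cycle
import Pool.Agent.DPt.Generic
import Pool.Agent.DPt.Forest
import Pool.Agent.DPt.Embed

namespace DPt

open Classical

/-- `x` is the abscissa of a crossing of the line `(μ, c)` with a member of another slope. -/
def Cross {K : Type*} [Field K] (S : Finset (K × K)) (μ c x : K) : Prop :=
  ∃ q ∈ S, q.1 ≠ μ ∧ μ * x + c = q.1 * x + q.2

/-- At least two members of other slopes meet the line `(μ, c)` at abscissa `x`. -/
def Triple {K : Type*} [Field K] (S : Finset (K × K)) (μ c x : K) : Prop :=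
  ∃ q ∈ S, ∃ t ∈ S, q.1 ≠ μ ∧ t.1 ≠ μ ∧ q ≠ t ∧
    μ * x + c = q.1 * x + q.2 ∧ μ * x + c = t.1 * x + t.2

theorem core_complex (S : Finset (ℂ × ℂ)) (μ : ℂ) (hμ : μ ∈ S.image Prod.fst)
    (h2 : 2 ≤ (S.image Prod.fst).card) :
    ∃ u : ℂ, (∀ c x x', (μ, c) ∈ S → Cross S μ c x → Cross S μ c x' →
        (u * x).re = (u * x').re → x = x') ∧
      ∀ σ : ℝ, σ ^ 2 = 1 →
      (((S.filter (fun p => p.1 = μ)).image Prod.snd).filter (fun c => ∃ x, Cross S μ c x ∧
        (∀ x', Cross S μ c x' → (σ * u * x').re ≤ (σ * u * x).re) ∧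
        Triple S μ c x)).card + 2 ≤ (S.image Prod.fst).card := by
  -- the other classes and the members of the class
  set Jf : Finset ℂ := (S.image Prod.fst).erase μ with hJf
  set Xf : Finset ℂ := (S.filter (fun p => p.1 = μ)).image Prod.snd with hXf
  have hJcard : Jf.card = (S.image Prod.fst).card - 1 := Finset.card_erase_of_mem hμ
  have hX : ∀ c, c ∈ Xf ↔ (μ, c) ∈ S := by
    intro c
    simp only [hXf, Finset.mem_image, Finset.mem_filter]
    constructor
    · rintro ⟨p, ⟨hp, h1⟩, h3⟩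
      have : p = (μ, c) := Prod.ext h1 h3
      rwa [this] at hp
    · intro h
      exact ⟨(μ, c), ⟨h, rfl⟩, rfl⟩
  have hJ : ∀ m, m ∈ Jf ↔ m ≠ μ ∧ ∃ b, (m, b) ∈ S := by
    intro m
    simp only [hJf, Finset.mem_erase, Finset.mem_image]
    constructor
    · rintro ⟨h1, p, hp, h3⟩
      exact ⟨h1, p.2, by rw [← h3]; exact hp⟩
    · rintro ⟨h1, b, hb⟩
      exact ⟨h1, (m, b), hb, rfl⟩
  set lam : ℂ → ℂ := fun m => 1 / (m - μ) with hlam
  have hlaminj : ∀ m m' : ℂ, m ≠ μ → m' ≠ μ → lam m = lam m' → m = m' := by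
    intro m m' hm hm' h
    simp only [hlam] at h
    have h1 : m - μ ≠ 0 := sub_ne_zero.mpr hm
    have h3 : m' - μ ≠ 0 := sub_ne_zero.mpr hm'
    rw [div_eq_div_iff h1 h3] at h
    linear_combination -h
  -- the countable set of directions to avoid
  set D1 : Set ℂ := (fun z : (S × S) × Xf => (1 + Complex.I) *
    sq (lam z.1.1.1.1 * (z.2.1 - z.1.1.1.2) - lam z.1.2.1.1 * (z.2.1 - z.1.2.1.2))) ''
      Set.univ with hD1
  let QQ : (Σ r : ℕ, (ZMod (r + 1) → Jf) × (ZMod (r + 1) → Xf)) → ℂ := fun z =>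
    ∑ s, starRingEnd ℂ (lam (z.2.1 s).1) * ((z.2.2 s).1 - (z.2.2 (s - 1)).1)
  set D2 : Set ℂ := (fun z : (Σ r : ℕ, (ZMod (r + 1) → Jf) × (ZMod (r + 1) → Xf)) × (Xf × Xf) =>
    tw (QQ z.1) * (z.2.1.1 - z.2.2.1)) '' Set.univ with hD2
  set D3 : Set ℂ := (fun z : (Σ r : ℕ, (ZMod (r + 1) → Jf) × (ZMod (r + 1) → Xf)) × (Jf × Jf) =>
    starRingEnd ℂ (tw (QQ z.1)) * (lam z.2.1.1 - lam z.2.2.1)) '' Set.univ with hD3
  have hfin1 : ∀ r : ℕ, Finite (ZMod (r + 1) → Jf) := fun r => by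
    have : Finite (ZMod (r + 1)) := Finite.of_fintype _
    infer_instance
  have hfin2 : ∀ r : ℕ, Finite (ZMod (r + 1) → Xf) := fun r => by
    have : Finite (ZMod (r + 1)) := Finite.of_fintype _
    infer_instance
  have hcc : Countable (Σ r : ℕ, (ZMod (r + 1) → Jf) × (ZMod (r + 1) → Xf)) := by
    infer_instance
  have hcount : (D1 ∪ D2 ∪ D3).Countable := by
    refine Set.Countable.union (Set.Countable.union ?_ ?_) ?_
    · exact Set.countable_univ.image _
    · exact Set.countable_univ.image _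
    · exact Set.countable_univ.image _
  obtain ⟨v0, hv0, hv0g⟩ := exists_generic _ hcount
  set u : ℂ := v0 ^ 2 with hu
  have hu0 : u ≠ 0 := pow_ne_zero 2 hv0
  -- genericity of u
  have hG0 : ∀ p ∈ S, ∀ q ∈ S, ∀ c ∈ Xf,
      (u * (lam p.1 * (c - p.2) - lam q.1 * (c - q.2))).re = 0 →
      lam p.1 * (c - p.2) = lam q.1 * (c - q.2) := by
    intro p hp q hq c hc h
    by_contra hne
    have hne' : lam p.1 * (c - p.2) - lam q.1 * (c - q.2) ≠ 0 := sub_ne_zero.mpr hne
    have hmem : (1 + Complex.I) * sq (lam p.1 * (c - p.2) - lam q.1 * (c - q.2)) ∈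
        D1 ∪ D2 ∪ D3 := by
      left; left
      exact ⟨((⟨p, hp⟩, ⟨q, hq⟩), ⟨c, hc⟩), Set.mem_univ _, rfl⟩
    have hI : (1 + Complex.I) ≠ 0 := by
      intro h1
      have := congrArg Complex.re h1
      simp at this
    obtain ⟨h3, h4⟩ := hv0g _ hmem (mul_ne_zero hI (sq_ne_zero hne'))
    rw [hu, re_sq_mul] at h
    rcases mul_eq_zero.mp h with h5 | h5
    · exact h3 h5
    · exact h4 h5
  have hcrossJ : ∀ c x, (μ, c) ∈ S → Cross S μ c x → ∃ q ∈ S, q.1 ∈ Jf ∧
      x = lam q.1 * (c - q.2) ∧ μ * x + c = q.1 * x + q.2 := by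
    rintro c x hcS ⟨q, hq, hqμ, hx⟩
    refine ⟨q, hq, (hJ q.1).mpr ⟨hqμ, q.2, hq⟩, ?_, hx⟩
    simp only [hlam]
    rw [div_mul_eq_mul_div, one_mul, eq_div_iff (sub_ne_zero.mpr hqμ)]
    linear_combination -hx
  refine ⟨u, ?_, ?_⟩
  · intro c x x' hcS hx hx' h
    obtain ⟨q, hq, hqJ, hxq, _⟩ := hcrossJ c x hcS hx
    obtain ⟨q', hq', hqJ', hxq', _⟩ := hcrossJ c x' hcS hx'
    rw [hxq, hxq']
    apply hG0 q hq q' hq' c ((hX c).mpr hcS)
    rw [mul_sub, Complex.sub_re, ← hxq, ← hxq', h, sub_self]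
  intro σ hσ
  set ε : ℂ := σ * u with hε
  have hσ0 : σ ≠ 0 := by
    rintro rfl; norm_num at hσ
  have hG0' : ∀ p ∈ S, ∀ q ∈ S, ∀ c ∈ Xf,
      (ε * (lam p.1 * (c - p.2) - lam q.1 * (c - q.2))).re = 0 →
      lam p.1 * (c - p.2) = lam q.1 * (c - q.2) := by
    intro p hp q hq c hc h
    apply hG0 p hp q hq c hc
    rw [hε, mul_assoc, Complex.re_ofReal_mul] at h
    rcases mul_eq_zero.mp h with h1 | h1
    · exact absurd h1 hσ0
    · exact h1
  set Yf : Finset ℂ := Xf.filter (fun c => ∃ x, Cross S μ c x ∧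
        (∀ x', Cross S μ c x' → (ε * x').re ≤ (ε * x).re) ∧ Triple S μ c x) with hYf
  have hYX : ∀ c ∈ Yf, c ∈ Xf := fun c hc => (Finset.mem_filter.mp hc).1
  -- the maximal intercept in every class
  have hmax : ∀ m : ℂ, m ∈ Jf → ∃ b, (m, b) ∈ S ∧
      ∀ b', (m, b') ∈ S → (ε * (lam m * (0 - b'))).re ≤ (ε * (lam m * (0 - b))).re := by
    intro m hm
    obtain ⟨_, b0, hb0⟩ := (hJ m).mp hm
    have hne : (S.filter (fun p => p.1 = m)).Nonempty :=
      ⟨(m, b0), Finset.mem_filter.mpr ⟨hb0, rfl⟩⟩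
    obtain ⟨p, hp, hpmax⟩ := Finset.exists_max_image (S.filter (fun p => p.1 = m))
      (fun p => (ε * (lam m * (0 - p.2))).re) hne
    obtain ⟨hpS, hp1⟩ := Finset.mem_filter.mp hp
    refine ⟨p.2, ?_, ?_⟩
    · rw [← hp1]; exact hpS
    · intro b' hb'
      exact hpmax (m, b') (Finset.mem_filter.mpr ⟨hb', rfl⟩)
  choose! bf hbS hbmax using hmax
  set Φ : ℂ → ℂ → ℂ := fun m c => lam m * (c - bf m) with hΦ
  -- the edge of a member of the class
  have hJne : Jf.Nonempty := by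
    rw [← Finset.card_pos, hJcard]; omega
  have hedge : ∀ c : Yf, ∃ e : Jf × Jf, e.1 ≠ e.2 ∧ Φ e.1.1 c.1 = Φ e.2.1 c.1 ∧
      ∀ m ∈ Jf, (ε * Φ m c.1).re ≤ (ε * Φ e.1.1 c.1).re := by
    intro c
    have hcX : c.1 ∈ Xf := hYX c.1 c.2
    have hcS : (μ, c.1) ∈ S := (hX c.1).mp hcX
    obtain ⟨_, x, _, hxtop, q, hq, t, ht, hqμ, htμ, hqt, hxq, hxt⟩ := Finset.mem_filter.mp c.2
    -- a member through the top crossing has the maximal intercept of its class
    have hkey : ∀ s ∈ S, s.1 ≠ μ → μ * x + c.1 = s.1 * x + s.2 →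
        s.1 ∈ Jf ∧ Φ s.1 c.1 = x := by
      intro s hs hsμ hxs
      have hsJ : s.1 ∈ Jf := (hJ s.1).mpr ⟨hsμ, s.2, hs⟩
      refine ⟨hsJ, ?_⟩
      have hsμ' : s.1 - μ ≠ 0 := sub_ne_zero.mpr hsμ
      have hx1 : x = lam s.1 * (c.1 - s.2) := by
        simp only [hlam]
        rw [div_mul_eq_mul_div, one_mul, eq_div_iff hsμ']
        linear_combination -hxs
      have hcr : Cross S μ c.1 (Φ s.1 c.1) := by
        refine ⟨(s.1, bf s.1), hbS _ hsJ, hsμ, ?_⟩
        simp only [hΦ, hlam]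
        field_simp
        ring
      have h3 := hxtop _ hcr
      have h4 := hbmax s.1 hsJ s.2 hs
      have h5 : (ε * x).re ≤ (ε * Φ s.1 c.1).re := by
        have e1 : (ε * x).re =
            (ε * (lam s.1 * c.1)).re + (ε * (lam s.1 * (0 - s.2))).re := by
          rw [hx1, ← Complex.add_re]; congr 1; ring
        have e2 : (ε * Φ s.1 c.1).re =
            (ε * (lam s.1 * c.1)).re + (ε * (lam s.1 * (0 - bf s.1))).re := by
          rw [← Complex.add_re]; congr 1; simp only [hΦ]; ring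
        rw [e1, e2]; linarith
      have h6 : (ε * Φ s.1 c.1).re = (ε * x).re := le_antisymm h3 h5
      rw [hx1]
      apply hG0' (s.1, bf s.1) (hbS _ hsJ) s hs c.1 hcX
      simp only
      rw [mul_sub, Complex.sub_re, ← hx1]
      have : lam s.1 * (c.1 - bf s.1) = Φ s.1 c.1 := rfl
      rw [this, h6, sub_self]
    obtain ⟨hqJ, hΦq⟩ := hkey q hq hqμ hxq
    obtain ⟨htJ, hΦt⟩ := hkey t ht htμ hxt
    have hne : q.1 ≠ t.1 := by
      intro h
      apply hqt
      apply Prod.ext h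
      rw [hxq, h] at hxt
      exact add_left_cancel hxt
    refine ⟨(⟨q.1, hqJ⟩, ⟨t.1, htJ⟩), ?_, hΦq.trans hΦt.symm, ?_⟩
    · intro h
      exact hne (congrArg Subtype.val h)
    · intro m hm
      simp only
      rw [hΦq]
      apply hxtop
      refine ⟨(m, bf m), hbS _ hm, ((hJ m).mp hm).1, ?_⟩
      have hmμ' : m - μ ≠ 0 := sub_ne_zero.mpr ((hJ m).mp hm).1
      simp only [hΦ, hlam]
      field_simp
      ring
  choose e he1 he2 he3 using hedge
  have : Nonempty Jf := hJne.coe_sort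
  have hmain := card_lt_of_no_cycle e he1 (by
    intro r _ hr t c ht hc hcyc
    -- both endpoints of the edge are on top
    have hA : ∀ s, Φ (t s).1 (c s).1 = Φ (t (s + 1)).1 (c s).1 := by
      intro s
      have h3 := he2 (c s)
      rcases hcyc s with h | h
      · rw [h] at h3; exact h3
      · rw [h] at h3; exact h3.symm
    have hB : ∀ s, ∀ m ∈ Jf, (ε * Φ m (c s).1).re ≤ (ε * Φ (t s).1 (c s).1).re := by
      intro s m hm
      have h3 := he3 (c s) m hm
      rcases hcyc s with h | h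
      · rw [h] at h3; exact h3
      · rw [h] at h3
        simp only at h3
        rw [← hA s] at h3; exact h3
    obtain ⟨r', rfl⟩ : ∃ r', r = r' + 1 := ⟨r - 1, by omega⟩
    set c' : ZMod (r' + 1) → Xf := fun s => ⟨(c s).1, hYX _ (c s).2⟩ with hc'
    set Q : ℂ := QQ ⟨r', (t, c')⟩ with hQdef
    set w : ℂ := tw Q with hw
    refine no_cycle (r' + 1) hr (fun s => lam (t s).1) (fun s => - (lam (t s).1 * bf (t s).1))
      (fun s => (c s).1) ?_ ?_ ?_ ε (v0 * w) (mul_ne_zero hv0 (tw_ne_zero Q)) ?_ ?_ ?_ ?_ ?_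
    · intro s s' h
      apply ht
      apply Subtype.ext
      exact hlaminj _ _ ((hJ _).mp (t s).2).1 ((hJ _).mp (t s').2).1 h
    · intro s s' h
      exact hc (Subtype.ext h)
    · intro s
      have h3 := hA s
      simp only [hΦ] at h3
      linear_combination h3
    · intro s s'
      have h3 := hB s (t s').1 (t s').2
      simp only [hΦ] at h3
      have e1 : lam (t s').1 * (c s).1 + -(lam (t s').1 * bf (t s').1) =
        lam (t s').1 * ((c s).1 - bf (t s').1) := by ring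
      have e2 : lam (t s).1 * (c s).1 + -(lam (t s).1 * bf (t s).1) =
        lam (t s).1 * ((c s).1 - bf (t s).1) := by ring
      rw [e1, e2]; exact h3
    · intro s s' h
      have e1 : lam (t s').1 * (c s).1 + -(lam (t s').1 * bf (t s').1) =
        lam (t s').1 * ((c s).1 - bf (t s').1) := by ring
      have e2 : lam (t s).1 * (c s).1 + -(lam (t s).1 * bf (t s).1) =
        lam (t s).1 * ((c s).1 - bf (t s).1) := by ring
      rw [e1, e2] at h ⊢
      apply hG0' ((t s').1, bf (t s').1) (hbS _ (t s').2) ((t s).1, bf (t s).1)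
        (hbS _ (t s).2) (c s).1 (hYX _ (c s).2)
      simp only
      rw [mul_sub, Complex.sub_re, h, sub_self]
    · have e1 : starRingEnd ℂ ε * (v0 * w) ^ 2 *
          ∑ s, starRingEnd ℂ (lam (t s).1) * ((c s).1 - (c (s - 1)).1) =
          ((σ * Complex.normSq v0 ^ 2 : ℝ) : ℂ) * (w ^ 2 * Q) := by
        have e2 : (Complex.normSq v0 : ℂ) = starRingEnd ℂ v0 * v0 :=
          Complex.normSq_eq_conj_mul_self
        push_cast
        rw [e2, hε, hu]
        simp only [map_mul, map_pow, Complex.conj_ofReal, hQdef, QQ, hc']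
        ring
      rw [e1, Complex.im_ofReal_mul, hw, tw_im, mul_zero]
    · intro s s' hne
      have hmem : w * ((c s).1 - (c s').1) ∈ D1 ∪ D2 ∪ D3 := by
        left; right
        exact ⟨(⟨r', (t, c')⟩, (c' s, c' s')), Set.mem_univ _, rfl⟩
      have hne' : (c s).1 - (c s').1 ≠ 0 := by
        intro h
        exact hne (hc (Subtype.ext (sub_eq_zero.mp h)))
      have h3 := (hv0g _ hmem (mul_ne_zero (tw_ne_zero Q) hne')).2
      rw [mul_assoc]; exact h3
    · intro s s' hne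
      have hmem : starRingEnd ℂ w * (lam (t s).1 - lam (t s').1) ∈ D1 ∪ D2 ∪ D3 := by
        right
        exact ⟨(⟨r', (t, c')⟩, (t s, t s')), Set.mem_univ _, rfl⟩
      have hne' : lam (t s).1 - lam (t s').1 ≠ 0 := by
        intro h
        apply hne
        apply ht
        apply Subtype.ext
        exact hlaminj _ _ ((hJ _).mp (t s).2).1 ((hJ _).mp (t s').2).1 (sub_eq_zero.mp h)
      have hw' : starRingEnd ℂ w ≠ 0 := by
        simpa using tw_ne_zero Q
      have h3 := (hv0g _ hmem (mul_ne_zero hw' hne')).1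
      have e1 : ε * starRingEnd ℂ (v0 * w) * (lam (t s).1 - lam (t s').1) =
          ((σ * Complex.normSq v0 : ℝ) : ℂ) *
            (v0 * (starRingEnd ℂ w * (lam (t s).1 - lam (t s').1))) := by
        push_cast
        rw [Complex.normSq_eq_conj_mul_self, hε, hu, map_mul]
        ring
      rw [e1, Complex.re_ofReal_mul]
      apply mul_ne_zero _ h3
      apply mul_ne_zero hσ0
      simpa using hv0)
  have hcJ : Fintype.card Jf = Jf.card := by simp
  have hcX : Fintype.card Yf = Yf.card := by simp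
  rw [hcJ, hcX, hJcard] at hmain
  omega

end DPt

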