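import Pool.Agent.DPt.Core

namespace DPt

open Classical

theorem core_field {K : Type*} [Field K] [CharZero K] (S : Finset (K × K)) (μ : K)
    (hμ : μ ∈ S.image Prod.fst) (h2 : 2 ≤ (S.image Prod.fst).card) :
    ∃ xp xm : K → K,
      (∀ c, (μ, c) ∈ S → Cross S μ c (xp c) ∧ Cross S μ c (xm c) ∧
        (xp c = xm c → ∀ x, Cross S μ c x → x = xp c)) ∧
      (((S.filter (fun p => p.1 = μ)).image Prod.snd).filter
        (fun c => Triple S μ c (xp c))).card + 2 ≤ (S.image Prod.fst).card ∧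
      (((S.filter (fun p => p.1 = μ)).image Prod.snd).filter
        (fun c => Triple S μ c (xm c))).card + 2 ≤ (S.image Prod.fst).card := by
  obtain ⟨F, hF, ⟨φ⟩⟩ := exists_subfield_embedding (S.image Prod.fst ∪ S.image Prod.snd)
  have hF1 : ∀ p ∈ S, p.1 ∈ F := fun p hp =>
    hF _ (Finset.mem_union_left _ (Finset.mem_image_of_mem _ hp))
  have hF2 : ∀ p ∈ S, p.2 ∈ F := fun p hp =>
    hF _ (Finset.mem_union_right _ (Finset.mem_image_of_mem _ hp))
  have hμF : μ ∈ F := hF _ (Finset.mem_union_left _ hμ)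
  set ψ : K → ℂ := fun x => if h : x ∈ F then φ ⟨x, h⟩ else 0 with hψ
  have hψF : ∀ x (h : x ∈ F), ψ x = φ ⟨x, h⟩ := by
    intro x h; simp only [hψ]; rw [dif_pos h]
  have hinj : ∀ x ∈ F, ∀ y ∈ F, ψ x = ψ y → x = y := by
    intro x hx y hy h
    rw [hψF x hx, hψF y hy] at h
    exact congrArg Subtype.val (φ.injective h)
  have hadd : ∀ x ∈ F, ∀ y ∈ F, ψ (x + y) = ψ x + ψ y := by
    intro x hx y hy
    rw [hψF x hx, hψF y hy, hψF _ (F.add_mem hx hy), ← map_add]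
    rfl
  have hmul : ∀ x ∈ F, ∀ y ∈ F, ψ (x * y) = ψ x * ψ y := by
    intro x hx y hy
    rw [hψF x hx, hψF y hy, hψF _ (F.mul_mem hx hy), ← map_mul]
    rfl
  set g : K × K → ℂ × ℂ := fun p => (ψ p.1, ψ p.2) with hg
  have hginj : Set.InjOn g (S : Set (K × K)) := by
    intro p hp q hq h
    have h1 := congrArg Prod.fst h
    have h3 := congrArg Prod.snd h
    exact Prod.ext (hinj _ (hF1 p hp) _ (hF1 q hq) h1) (hinj _ (hF2 p hp) _ (hF2 q hq) h3)
  have hslopes : (S.image g).image Prod.fst = (S.image Prod.fst).image ψ := by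
    rw [Finset.image_image, Finset.image_image]
    rfl
  have hcard1 : ((S.image g).image Prod.fst).card = (S.image Prod.fst).card := by
    rw [hslopes]
    apply Finset.card_image_of_injOn
    intro x hx y hy h
    obtain ⟨p, hp, rfl⟩ := Finset.mem_image.mp (Finset.mem_coe.mp hx)
    obtain ⟨q, hq, rfl⟩ := Finset.mem_image.mp (Finset.mem_coe.mp hy)
    exact hinj _ (hF1 p hp) _ (hF1 q hq) h
  have hμ' : ψ μ ∈ (S.image g).image Prod.fst := by
    rw [hslopes]; exact Finset.mem_image_of_mem _ hμ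
  obtain ⟨u, hu1, hu2⟩ := core_complex (S.image g) (ψ μ) hμ' (by rw [hcard1]; exact h2)
  rw [hcard1] at hu2
  -- abscissas of crossings
  have hcrF : ∀ c x, (μ, c) ∈ S → Cross S μ c x → x ∈ F := by
    rintro c x hcS ⟨q, hq, hqμ, hx⟩
    have h1 : x = (q.2 - c) / (μ - q.1) := by
      rw [eq_div_iff (sub_ne_zero.mpr (Ne.symm hqμ))]
      linear_combination hx
    rw [h1]
    exact F.div_mem (F.sub_mem (hF2 q hq) (hF2 _ hcS)) (F.sub_mem hμF (hF1 q hq))
  have hval : ∀ s ∈ S, ∀ x ∈ F, ψ (s.1 * x + s.2) = ψ s.1 * ψ x + ψ s.2 := by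
    intro s hs x hxF
    rw [hadd _ (F.mul_mem (hF1 s hs) hxF) _ (hF2 s hs), hmul _ (hF1 s hs) _ hxF]
  have hpush : ∀ c x, (μ, c) ∈ S → ∀ q ∈ S, x ∈ F → μ * x + c = q.1 * x + q.2 →
      ψ μ * ψ x + ψ c = (g q).1 * ψ x + (g q).2 := by
    intro c x hcS q hq hxF hx
    show ψ μ * ψ x + ψ c = ψ q.1 * ψ x + ψ q.2
    rw [← hval q hq x hxF, ← hx, ← hval (μ, c) hcS x hxF]
  have hcr1 : ∀ c x, (μ, c) ∈ S → Cross S μ c x → Cross (S.image g) (ψ μ) (ψ c) (ψ x) := by
    intro c x hcS hcr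
    have hxF := hcrF c x hcS hcr
    obtain ⟨q, hq, hqμ, hx⟩ := hcr
    refine ⟨g q, Finset.mem_image_of_mem _ hq, ?_, hpush c x hcS q hq hxF hx⟩
    intro h
    exact hqμ (hinj _ (hF1 q hq) _ hμF h)
  have hcr2 : ∀ c x', (μ, c) ∈ S → Cross (S.image g) (ψ μ) (ψ c) x' →
      ∃ x, Cross S μ c x ∧ ψ x = x' := by
    rintro c x' hcS ⟨q', hq', hq'μ, hx'⟩
    obtain ⟨q, hq, rfl⟩ := Finset.mem_image.mp hq'
    have hqμ : q.1 ≠ μ := by
      intro h; apply hq'μ; show ψ q.1 = ψ μ; rw [h]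
    have hne : μ - q.1 ≠ 0 := sub_ne_zero.mpr (Ne.symm hqμ)
    have hcr : Cross S μ c ((q.2 - c) / (μ - q.1)) := by
      refine ⟨q, hq, hqμ, ?_⟩
      field_simp
      ring
    refine ⟨_, hcr, ?_⟩
    have hxF := hcrF c _ hcS hcr
    have hx : μ * ((q.2 - c) / (μ - q.1)) + c = q.1 * ((q.2 - c) / (μ - q.1)) + q.2 := by
      field_simp
      ring
    have h3 := hpush c _ hcS q hq hxF hx
    have h4 : (ψ μ - (g q).1) * (ψ ((q.2 - c) / (μ - q.1)) - x') = 0 := by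
      linear_combination h3 - hx'
    rcases mul_eq_zero.mp h4 with h5 | h5
    · exact absurd (sub_eq_zero.mp h5).symm hq'μ
    · exact sub_eq_zero.mp h5
  have htr1 : ∀ c x, (μ, c) ∈ S → Triple S μ c x → Triple (S.image g) (ψ μ) (ψ c) (ψ x) := by
    rintro c x hcS ⟨q, hq, t, ht, hqμ, htμ, hqt, hxq, hxt⟩
    have hxF := hcrF c x hcS ⟨q, hq, hqμ, hxq⟩
    refine ⟨g q, Finset.mem_image_of_mem _ hq, g t, Finset.mem_image_of_mem _ ht, ?_, ?_, ?_,
      hpush c x hcS q hq hxF hxq, hpush c x hcS t ht hxF hxt⟩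
    · intro h; exact hqμ (hinj _ (hF1 q hq) _ hμF h)
    · intro h; exact htμ (hinj _ (hF1 t ht) _ hμF h)
    · intro h; exact hqt (hginj hq ht h)
  -- the finite set of crossings
  obtain ⟨q0, hq0, hq0μ⟩ : ∃ q ∈ S, q.1 ≠ μ := by
    by_contra hcon
    push Not at hcon
    have : S.image Prod.fst ⊆ {μ} := by
      intro x hx
      obtain ⟨p, hp, rfl⟩ := Finset.mem_image.mp hx
      exact Finset.mem_singleton.mpr (hcon p hp)
    have := Finset.card_le_card this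
    simp at this
    omega
  have hZ : ∀ c, ∃ Z : Finset K, Z.Nonempty ∧ ∀ x, x ∈ Z ↔ Cross S μ c x := by
    intro c
    refine ⟨(S.filter (fun q => q.1 ≠ μ)).image (fun q => (q.2 - c) / (μ - q.1)), ?_, ?_⟩
    · exact ⟨_, Finset.mem_image_of_mem _ (Finset.mem_filter.mpr ⟨hq0, hq0μ⟩)⟩
    · intro x
      rw [Finset.mem_image]
      constructor
      · rintro ⟨q, hq, rfl⟩
        obtain ⟨hqS, hqμ⟩ := Finset.mem_filter.mp hq
        have hne : μ - q.1 ≠ 0 := sub_ne_zero.mpr (Ne.symm hqμ)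
        refine ⟨q, hqS, hqμ, ?_⟩
        field_simp
        ring
      · rintro ⟨q, hq, hqμ, hx⟩
        refine ⟨q, Finset.mem_filter.mpr ⟨hq, hqμ⟩, ?_⟩
        rw [eq_comm, eq_div_iff (sub_ne_zero.mpr (Ne.symm hqμ))]
        linear_combination hx
  choose Z hZne hZmem using hZ
  have hp : ∀ c, ∃ x ∈ Z c, ∀ x' ∈ Z c, (u * ψ x').re ≤ (u * ψ x).re :=
    fun c => Finset.exists_max_image (Z c) (fun x => (u * ψ x).re) (hZne c)
  have hm : ∀ c, ∃ x ∈ Z c, ∀ x' ∈ Z c, (u * ψ x).re ≤ (u * ψ x').re :=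
    fun c => Finset.exists_min_image (Z c) (fun x => (u * ψ x).re) (hZne c)
  choose xp hxp1 hxp2 using hp
  choose xm hxm1 hxm2 using hm
  have hXmem : ∀ c, c ∈ (S.filter (fun p => p.1 = μ)).image Prod.snd ↔ (μ, c) ∈ S := by
    intro c
    simp only [Finset.mem_image, Finset.mem_filter]
    constructor
    · rintro ⟨p, ⟨hp, h1⟩, h3⟩
      have : p = (μ, c) := Prod.ext h1 h3
      rwa [this] at hp
    · intro h
      exact ⟨(μ, c), ⟨h, rfl⟩, rfl⟩
  have hXmem' : ∀ c, (μ, c) ∈ S →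
      ψ c ∈ ((S.image g).filter (fun p => p.1 = ψ μ)).image Prod.snd := by
    intro c hcS
    rw [Finset.mem_image]
    exact ⟨g (μ, c), Finset.mem_filter.mpr ⟨Finset.mem_image_of_mem _ hcS, rfl⟩, rfl⟩
  have hψinjS : ∀ (P : K → Prop), Set.InjOn ψ
      (((S.filter (fun p => p.1 = μ)).image Prod.snd).filter (fun c => P c) : Finset K) := by
    intro P c hc c' hc' h
    have h1 := (hXmem c).mp (Finset.mem_filter.mp (Finset.mem_coe.mp hc)).1
    have h3 := (hXmem c').mp (Finset.mem_filter.mp (Finset.mem_coe.mp hc')).1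
    exact hinj _ (hF2 _ h1) _ (hF2 _ h3) h
  refine ⟨xp, xm, ?_, ?_, ?_⟩
  · intro c hcS
    refine ⟨(hZmem c _).mp (hxp1 c), (hZmem c _).mp (hxm1 c), ?_⟩
    intro heq x hx
    have hxZ := (hZmem c x).mpr hx
    have h1 := hxp2 c x hxZ
    have h3 := hxm2 c x hxZ
    rw [← heq] at h3
    have h4 : (u * ψ x).re = (u * ψ (xp c)).re := le_antisymm h1 h3
    have h5 := hu1 (ψ c) (ψ x) (ψ (xp c)) (Finset.mem_image_of_mem g hcS)
      (hcr1 c x hcS hx) (hcr1 c _ hcS ((hZmem c _).mp (hxp1 c))) h4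
    exact hinj _ (hcrF c x hcS hx) _ (hcrF c _ hcS ((hZmem c _).mp (hxp1 c))) h5
  · refine le_trans (Nat.add_le_add_right ?_ 2) (hu2 1 (by norm_num))
    apply Finset.card_le_card_of_injOn ψ
    · intro c hc
      obtain ⟨hcX, htr⟩ := Finset.mem_filter.mp (Finset.mem_coe.mp hc)
      have hcS := (hXmem c).mp hcX
      rw [Finset.mem_coe, Finset.mem_filter]
      refine ⟨hXmem' c hcS, ψ (xp c), hcr1 c _ hcS ((hZmem c _).mp (hxp1 c)), ?_,
        htr1 c _ hcS htr⟩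
      intro x' hx'
      obtain ⟨x, hx, rfl⟩ := hcr2 c x' hcS hx'
      have := hxp2 c x ((hZmem c x).mpr hx)
      simpa using this
    · exact hψinjS _
  · refine le_trans (Nat.add_le_add_right ?_ 2) (hu2 (-1) (by norm_num))
    apply Finset.card_le_card_of_injOn ψ
    · intro c hc
      obtain ⟨hcX, htr⟩ := Finset.mem_filter.mp (Finset.mem_coe.mp hc)
      have hcS := (hXmem c).mp hcX
      rw [Finset.mem_coe, Finset.mem_filter]
      refine ⟨hXmem' c hcS, ψ (xm c), hcr1 c _ hcS ((hZmem c _).mp (hxm1 c)), ?_,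
        htr1 c _ hcS htr⟩
      intro x' hx'
      obtain ⟨x, hx, rfl⟩ := hcr2 c x' hcS hx'
      have h1 := hxm2 c x ((hZmem c x).mpr hx)
      have e1 : ∀ z : ℂ, (((-1 : ℝ) : ℂ) * u * z).re = -(u * z).re := by
        intro z
        rw [mul_assoc, Complex.re_ofReal_mul]; ring
      rw [e1, e1]
      linarith
    · exact hψinjS _

end DPt
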