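import Pool.Agent.DPt.Rect

namespace DPt

lemma re_mul_im (p q : ℂ) : p.re * q.im = ((p * q).im + (starRingEnd ℂ p * q).im) / 2 := by
  simp [Complex.mul_im]
  ring

/-- A real affine function on a segment. -/
lemma seg_sign {α β τ : ℝ} (hα : α ≤ 0) (hβ : β ≤ 0) (h0 : 0 < τ) (h1 : τ < 1)
    (h : 0 ≤ α + τ * (β - α)) : α = 0 ∧ β = 0 := by
  have h2 : α + τ * (β - α) = (1 - τ) * α + τ * β := by ring
  rw [h2] at h
  have h3 : (1 - τ) * α ≤ 0 := mul_nonpos_of_nonneg_of_nonpos (by linarith) hα
  have h4 : τ * β ≤ 0 := mul_nonpos_of_nonneg_of_nonpos h0.le hβ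
  have h5 : (1 - τ) * α = 0 := by linarith
  have h6 : τ * β = 0 := by linarith
  constructor
  · rcases mul_eq_zero.mp h5 with h7 | h7
    · linarith
    · exact h7
  · rcases mul_eq_zero.mp h6 with h7 | h7
    · linarith
    · exact h7

lemma seg_nonpos {α β τ : ℝ} (hα : α ≤ 0) (hβ : β ≤ 0) (h0 : 0 < τ) (h1 : τ < 1) :
    α + τ * (β - α) ≤ 0 := by
  have h2 : α + τ * (β - α) = (1 - τ) * α + τ * β := by ring
  rw [h2]
  have h3 : (1 - τ) * α ≤ 0 := mul_nonpos_of_nonneg_of_nonpos (by linarith) hα
  have h4 : τ * β ≤ 0 := mul_nonpos_of_nonneg_of_nonpos h0.le hβ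
  linarith

theorem no_cycle (r : ℕ) [NeZero r] (hr : 2 ≤ r) (m b c : ZMod r → ℂ)
    (hm : Function.Injective m) (hc : Function.Injective c)
    (hcoin : ∀ s, m s * c s + b s = m (s + 1) * c s + b (s + 1))
    (u v : ℂ) (hv : v ≠ 0)
    (htop : ∀ s t, (u * (m t * c s + b t)).re ≤ (u * (m s * c s + b s)).re)
    (hgen : ∀ s t, (u * (m t * c s + b t)).re = (u * (m s * c s + b s)).re →
      m t * c s + b t = m s * c s + b s)
    (hQ : (starRingEnd ℂ u * v ^ 2 *
      ∑ s, starRingEnd ℂ (m s) * (c s - c (s - 1))).im = 0)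
    (hg1 : ∀ s t, s ≠ t → (v * (c s - c t)).im ≠ 0)
    (hg2 : ∀ s t, s ≠ t → (u * starRingEnd ℂ v * (m s - m t)).re ≠ 0) : False := by
  have hne1 : ∀ s : ZMod r, s - 1 ≠ s := by
    intro s h
    have h1 : (1 : ZMod r) = 0 := by
      have := sub_eq_self.mp h
      exact this
    have : Fact (1 < r) := ⟨by omega⟩
    exact one_ne_zero h1
  -- telescoping
  have htel : ∑ s, m s * (c s - c (s - 1)) = 0 := by
    have h1 : ∀ s, m s * (c s - c (s - 1)) =
        (m s * c s + b s) - (m (s - 1) * c (s - 1) + b (s - 1)) := by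
      intro s
      have h2 := hcoin (s - 1)
      rw [sub_add_cancel] at h2
      rw [h2]; ring
    rw [Finset.sum_congr rfl (fun s _ => h1 s), Finset.sum_sub_distrib]
    have h3 : ∑ s, (m (s - 1) * c (s - 1) + b (s - 1)) = ∑ s, (m s * c s + b s) :=
      Equiv.sum_comp (Equiv.subRight (1 : ZMod r)) (fun s => m s * c s + b s)
    rw [h3, sub_self]
  -- the rectilinear polygon
  set a : ZMod r → ℝ := fun s => (u * starRingEnd ℂ v * m s).re with ha
  set y : ZMod r → ℝ := fun s => (v * c s).im with hy
  have hainj : Function.Injective a := by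
    intro s t hst
    by_contra hne
    apply hg2 s t hne
    have : (u * starRingEnd ℂ v * (m s - m t)).re = a s - a t := by
      simp only [ha, mul_sub, Complex.sub_re]
    rw [this, hst, sub_self]
  have hyinj : Function.Injective y := by
    intro s t hst
    by_contra hne
    apply hg1 s t hne
    have : (v * (c s - c t)).im = y s - y t := by
      simp only [hy, mul_sub, Complex.sub_im]
    rw [this, hst, sub_self]
  have harea : ∑ s, a s * (y s - y (s - 1)) = 0 := by
    have h1 : ∀ s, a s * (y s - y (s - 1)) =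
        ((u * starRingEnd ℂ v * v * (m s * (c s - c (s - 1)))).im +
        (starRingEnd ℂ u * v ^ 2 * (starRingEnd ℂ (m s) * (c s - c (s - 1)))).im) / 2 := by
      intro s
      have h2 : y s - y (s - 1) = (v * (c s - c (s - 1))).im := by
        simp only [hy, mul_sub, Complex.sub_im]
      rw [h2, ha]
      simp only
      rw [re_mul_im]
      congr 3
      · ring
      · simp only [map_mul, Complex.conj_conj]
        ring
    rw [Finset.sum_congr rfl (fun s _ => h1 s), ← Finset.sum_div, Finset.sum_add_distrib,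
      ← Complex.im_sum, ← Complex.im_sum, ← Finset.mul_sum, ← Finset.mul_sum, htel, hQ]
    simp
  refine rect_area_ne_zero r hr a y hainj hyinj ?_ harea
  intro q s hsq hsq1 hbet
  -- the parameter on the segment
  have hys : y s - y (s - 1) ≠ 0 := by
    intro h
    have := hyinj (sub_eq_zero.mp h)
    exact hne1 s this.symm
  obtain ⟨τ, h0, h1, hτ⟩ : ∃ τ : ℝ, 0 < τ ∧ τ < 1 ∧ y (s - 1) + τ * (y s - y (s - 1)) = y q := by
    refine ⟨(y q - y (s - 1)) / (y s - y (s - 1)), ?_, ?_, ?_⟩
    · rcases hbet with ⟨h2, h3⟩ | ⟨h2, h3⟩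
      · exact div_pos (by linarith) (by linarith)
      · exact div_pos_of_neg_of_neg (by linarith) (by linarith)
    · rcases hbet with ⟨h2, h3⟩ | ⟨h2, h3⟩
      · rw [div_lt_one (by linarith)]; linarith
      · rw [div_lt_one_of_neg (by linarith)]; linarith
    · rw [div_mul_cancel₀ _ hys]; ring
  set p : ℂ := c (s - 1) + τ * (c s - c (s - 1)) with hp
  have hpim : (v * (c q - p)).im = 0 := by
    have : (v * (c q - p)).im = y q - (y (s - 1) + τ * (y s - y (s - 1))) := by
      simp only [hy, hp, Complex.mul_im, Complex.sub_im, Complex.sub_re, Complex.add_re,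
        Complex.add_im, Complex.ofReal_re, Complex.ofReal_im, Complex.mul_re]
      ring
    rw [this, hτ, sub_self]
  -- comparison function of t and s
  have hG : ∀ t : ZMod r,
      (u * ((m t - m s) * p + (b t - b s))).re =
      (u * ((m t - m s) * c (s - 1) + (b t - b s))).re + τ *
        ((u * ((m t - m s) * c s + (b t - b s))).re -
          (u * ((m t - m s) * c (s - 1) + (b t - b s))).re) := by
    intro t
    simp only [hp, Complex.mul_re, Complex.mul_im, Complex.sub_im, Complex.sub_re,
      Complex.add_re, Complex.add_im, Complex.ofReal_re, Complex.ofReal_im]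
    ring
  have hend1 : ∀ t : ZMod r, (u * ((m t - m s) * c s + (b t - b s))).re ≤ 0 := by
    intro t
    have h2 := htop s t
    have h3 : (u * ((m t - m s) * c s + (b t - b s))).re =
        (u * (m t * c s + b t)).re - (u * (m s * c s + b s)).re := by
      rw [← Complex.sub_re]; congr 1; ring
    rw [h3]; linarith
  have hsm : m (s - 1) * c (s - 1) + b (s - 1) = m s * c (s - 1) + b s := by
    have := hcoin (s - 1)
    rwa [sub_add_cancel] at this
  have hend0 : ∀ t : ZMod r, (u * ((m t - m s) * c (s - 1) + (b t - b s))).re ≤ 0 := by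
    intro t
    have h2 := htop (s - 1) t
    have h3 : (u * ((m t - m s) * c (s - 1) + (b t - b s))).re =
        (u * (m t * c (s - 1) + b t)).re - (u * (m (s - 1) * c (s - 1) + b (s - 1))).re := by
      rw [hsm, ← Complex.sub_re]; congr 1; ring
    rw [h3]; linarith
  -- at c q the function t (t = q or q + 1) is on top
  have hcq : ∀ t : ZMod r, (t = q ∨ t = q + 1) →
      0 ≤ (u * ((m t - m s) * c q + (b t - b s))).re := by
    intro t ht
    have h2 := htop q s
    have h3 : m t * c q + b t = m q * c q + b q := by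
      rcases ht with rfl | rfl
      · rfl
      · exact (hcoin q).symm
    have h4 : (u * ((m t - m s) * c q + (b t - b s))).re =
        (u * (m t * c q + b t)).re - (u * (m s * c q + b s)).re := by
      rw [← Complex.sub_re]; congr 1; ring
    rw [h4, h3]; linarith
  -- c q - p is a real multiple of conj v
  set ρ : ℝ := (v * (c q - p)).re / Complex.normSq v with hρ
  have hD : c q - p = ρ * starRingEnd ℂ v := by
    have hns : (Complex.normSq v : ℂ) ≠ 0 := by
      simpa using hv
    have h2 : v * (c q - p) = ((v * (c q - p)).re : ℂ) := by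
      apply Complex.ext
      · simp
      · simp [hpim]
    have h3 : starRingEnd ℂ v * (v * (c q - p)) = starRingEnd ℂ v * ((v * (c q - p)).re : ℂ) := by
      rw [← h2]
    have h4 : starRingEnd ℂ v * v = (Complex.normSq v : ℂ) := by
      rw [Complex.normSq_eq_conj_mul_self]
    rw [← mul_assoc, h4] at h3
    rw [hρ]
    push_cast
    rw [div_mul_eq_mul_div, eq_div_iff hns, mul_comm _ ((Complex.normSq v : ℂ)), h3]
    ring
  have hdiff : ∀ t : ZMod r, (u * ((m t - m s) * c q + (b t - b s))).re -
      (u * ((m t - m s) * p + (b t - b s))).re = ρ * (a t - a s) := by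
    intro t
    have h2 : (u * ((m t - m s) * c q + (b t - b s))).re -
        (u * ((m t - m s) * p + (b t - b s))).re = (u * ((m t - m s) * (c q - p))).re := by
      rw [← Complex.sub_re]; congr 1; ring
    rw [h2, hD]
    have h3 : u * ((m t - m s) * (↑ρ * starRingEnd ℂ v)) =
        ρ * (u * starRingEnd ℂ v * m t - u * starRingEnd ℂ v * m s) := by ring
    rw [h3, Complex.re_ofReal_mul, Complex.sub_re]
  have hkey : ∀ t : ZMod r, (t = q ∨ t = q + 1) → 0 ≤ ρ * (a t - a s) := by
    intro t ht
    have h2 := hdiff t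
    have h3 := hcq t ht
    have h4 : (u * ((m t - m s) * p + (b t - b s))).re ≤ 0 := by
      rw [hG t]
      exact seg_nonpos (hend0 t) (hend1 t) h0 h1
    linarith
  have hρ0 : ρ ≠ 0 := by
    intro hρ0
    -- then c q = p and the functions q and s agree at both ends
    have h2 := hdiff q
    rw [hρ0, zero_mul] at h2
    have h3 := hcq q (Or.inl rfl)
    have h4 : 0 ≤ (u * ((m q - m s) * p + (b q - b s))).re := by linarith
    rw [hG q] at h4
    obtain ⟨h5, h6⟩ := seg_sign (hend0 q) (hend1 q) h0 h1 h4
    have h7 : (u * (m q * c s + b q)).re = (u * (m s * c s + b s)).re := by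
      have : (u * ((m q - m s) * c s + (b q - b s))).re =
        (u * (m q * c s + b q)).re - (u * (m s * c s + b s)).re := by
        rw [← Complex.sub_re]; congr 1; ring
      linarith
    have h8 : (u * (m q * c (s - 1) + b q)).re =
        (u * (m (s - 1) * c (s - 1) + b (s - 1))).re := by
      have : (u * ((m q - m s) * c (s - 1) + (b q - b s))).re =
        (u * (m q * c (s - 1) + b q)).re - (u * (m (s - 1) * c (s - 1) + b (s - 1))).re := by
        rw [hsm, ← Complex.sub_re]; congr 1; ring
      linarith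
    have h9 := hgen s q h7
    have h10 := hgen (s - 1) q h8
    rw [hsm] at h10
    have h11 : (m q - m s) * (c s - c (s - 1)) = 0 := by
      linear_combination h9 - h10
    rcases mul_eq_zero.mp h11 with h12 | h12
    · exact hsq (hm (sub_eq_zero.mp h12)).symm
    · exact hne1 s (hc (sub_eq_zero.mp h12)).symm
  have hk1 := hkey q (Or.inl rfl)
  have hk2 := hkey (q + 1) (Or.inr rfl)
  have hn1 : a q - a s ≠ 0 := fun h => hsq (hainj (sub_eq_zero.mp h)).symm
  have hn2 : a (q + 1) - a s ≠ 0 := fun h => hsq1 (hainj (sub_eq_zero.mp h)).symm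
  rcases lt_or_gt_of_ne hρ0 with hneg | hpos
  · have h2 : a q - a s < 0 := by
      rcases lt_or_gt_of_ne hn1 with h | h
      · exact h
      · exfalso; have := mul_neg_of_neg_of_pos hneg h; linarith
    have h3 : a (q + 1) - a s < 0 := by
      rcases lt_or_gt_of_ne hn2 with h | h
      · exact h
      · exfalso; have := mul_neg_of_neg_of_pos hneg h; linarith
    exact mul_pos_of_neg_of_neg h2 h3
  · have h2 : 0 < a q - a s := by
      rcases lt_or_gt_of_ne hn1 with h | h
      · exfalso; have := mul_neg_of_pos_of_neg hpos h; linarith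
      · exact h
    have h3 : 0 < a (q + 1) - a s := by
      rcases lt_or_gt_of_ne hn2 with h | h
      · exfalso; have := mul_neg_of_pos_of_neg hpos h; linarith
      · exact h
    exact mul_pos h2 h3

end DPt
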