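import Pool.Agent.DPt.Main

/-!
# The double points on the lines through one point of `H`
-/

open scoped LinearAlgebra.Projectivization

namespace DPt

open Classical

variable {K : Type*} [Field K]

/-- The points off `H` on exactly two lines of `B`, one of which passes through `p`. -/
def dblAt (B : Finset (ℙ K (Fin 3 → K))) (H p : ℙ K (Fin 3 → K)) : Set (ℙ K (Fin 3 → K)) :=
  {q | q ∈ dbl B H ∧ ∃ L ∈ B, L.orthogonal p ∧ L.orthogonal q}

/-- The affine picture, for one class of parallel lines. -/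
theorem setup_local [CharZero K] (B : Finset (ℙ K (Fin 3 → K))) (H : ℙ K (Fin 3 → K))
    (hH : H ∉ B) :
    ∃ (M : Finset K) (pt : K → ℙ K (Fin 3 → K)), Function.Injective pt ∧
      {p | H.orthogonal p ∧ ∃ L ∈ B, L.orthogonal p} = pt '' (M : Set K) ∧
      (3 ≤ M.card → ∀ m ∈ M, 2 * (mult B (pt m) - (M.card - 2)) ≤ (dblAt B H (pt m)).ncard) := by
  obtain ⟨g, pt, aff, hginj, hptinj, haffinj, hpt, hLpt, htr, haff, _, hLaff⟩ :=
    exists_chart B H hH
  set S : Finset (K × K) := B.image g with hS
  have hmult : ∀ m, mult B (pt m) = (S.filter (fun p => p.1 = m)).card := by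
    intro m
    rw [mult_eq]
    have h1 : S.filter (fun p => p.1 = m) =
        (B.filter (fun L => L.orthogonal (pt m))).image g := by
      ext z
      simp only [hS, Finset.mem_filter, Finset.mem_image]
      constructor
      · rintro ⟨⟨L, hL, rfl⟩, h⟩
        exact ⟨L, ⟨hL, (hLpt L hL m).mpr h⟩, rfl⟩
      · rintro ⟨L, ⟨hL, h⟩, rfl⟩
        exact ⟨⟨L, hL, rfl⟩, (hLpt L hL m).mp h⟩
    rw [h1, Finset.card_image_of_injOn]
    intro L hL L' hL' h
    exact hginj (Finset.mem_filter.mp (Finset.mem_coe.mp hL)).1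
      (Finset.mem_filter.mp (Finset.mem_coe.mp hL')).1 h
  have hXcard : ∀ m, ((S.filter (fun p => p.1 = m)).image Prod.snd).card = mult B (pt m) := by
    intro m
    rw [hmult m]
    apply Finset.card_image_of_injOn
    intro p hp q hq h
    have hp' := (Finset.mem_filter.mp (Finset.mem_coe.mp hp)).2
    have hq' := (Finset.mem_filter.mp (Finset.mem_coe.mp hq)).2
    exact Prod.ext (hp'.trans hq'.symm) h
  -- simple crossings are double points off `H`
  have hdx : ∀ L ∈ B, ∀ x ∈ dx S (g L).1 (g L).2,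
      L.orthogonal (aff (x, (g L).1 * x + (g L).2)) ∧
      aff (x, (g L).1 * x + (g L).2) ∈ dbl B H := by
    intro L hL x hx
    rw [mem_dx] at hx
    obtain ⟨⟨q, hq, hqμ, hxq⟩, htr3⟩ := hx
    obtain ⟨M, hM, rfl⟩ := Finset.mem_image.mp hq
    have hLP : L.orthogonal (aff (x, (g L).1 * x + (g L).2)) :=
      (hLaff L hL _ _).mpr rfl
    have hMP : M.orthogonal (aff (x, (g L).1 * x + (g L).2)) := by
      rw [hLaff M hM]; exact hxq
    refine ⟨hLP, haff _, ?_⟩
    have hLM : L ≠ M := by
      rintro rfl; exact hqμ rfl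
    rw [mult_eq]
    have : B.filter (fun N => N.orthogonal (aff (x, (g L).1 * x + (g L).2))) = {L, M} := by
      ext N
      simp only [Finset.mem_filter, Finset.mem_insert, Finset.mem_singleton]
      constructor
      · rintro ⟨hN, hNP⟩
        rw [hLaff N hN] at hNP
        by_cases hNμ : (g N).1 = (g L).1
        · left
          apply hginj hN hL
          apply Prod.ext hNμ
          rw [hNμ] at hNP
          exact (add_left_cancel hNP).symm
        · right
          by_contra hNM
          apply htr3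
          refine ⟨g M, hq, g N, Finset.mem_image_of_mem _ hN, hqμ, hNμ, ?_, hxq, hNP⟩
          intro h
          exact hNM (hginj hM hN h).symm
      · rintro (rfl | rfl)
        · exact ⟨hL, hLP⟩
        · exact ⟨hM, hMP⟩
    rw [this, Finset.card_pair hLM]
  refine ⟨S.image Prod.fst, pt, hptinj, ?_, ?_⟩
  · ext p
    simp only [Set.mem_ofPred_eq, Set.mem_image, Finset.mem_coe]
    constructor
    · rintro ⟨hp, L, hL, hLp⟩
      obtain ⟨m, rfl⟩ := htr p hp ⟨L, hL, hLp⟩
      refine ⟨m, ?_, rfl⟩
      rw [Finset.mem_image]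
      exact ⟨g L, Finset.mem_image_of_mem _ hL, (hLpt L hL m).mp hLp⟩
    · rintro ⟨m, hm, rfl⟩
      obtain ⟨z, hz, rfl⟩ := Finset.mem_image.mp hm
      obtain ⟨L, hL, rfl⟩ := Finset.mem_image.mp hz
      exact ⟨hpt _, L, hL, (hLpt L hL _).mpr rfl⟩
  · intro h3 m hm
    set D : Finset (ℙ K (Fin 3 → K)) := (dbl_finite B H).toFinset with hD
    have hDmem : ∀ p, p ∈ D ↔ p ∈ dbl B H := fun p => Set.Finite.mem_toFinset _
    have hδ : ∀ L ∈ B, (dx S (g L).1 (g L).2).card ≤
        (D.filter (fun p => L.orthogonal p)).card := by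
      intro L hL
      apply Finset.card_le_card_of_injOn (fun x => aff (x, (g L).1 * x + (g L).2))
      · intro x hx
        obtain ⟨h4, h5⟩ := hdx L hL x hx
        exact Finset.mem_filter.mpr ⟨(hDmem _).mpr h5, h4⟩
      · intro x _ x' _ h
        exact congrArg Prod.fst (haffinj h)
    have h4 := class_bound S m hm h3
    rw [hXcard m] at h4
    have h5 : ∑ L ∈ B.filter (fun L => (g L).1 = m), (dx S (g L).1 (g L).2).card ≤
        ∑ L ∈ B.filter (fun L => (g L).1 = m),
          (D.filter (fun p => L.orthogonal p)).card :=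
      Finset.sum_le_sum (fun L hL => hδ L (Finset.mem_filter.mp hL).1)
    have h6 : (S.filter (fun p => p.1 = m)).image Prod.snd =
        (B.filter (fun L => (g L).1 = m)).image (fun L => (g L).2) := by
      ext c
      simp only [hS, Finset.mem_image, Finset.mem_filter]
      constructor
      · rintro ⟨p, ⟨⟨L, hL, rfl⟩, h7⟩, rfl⟩
        exact ⟨L, ⟨hL, h7⟩, rfl⟩
      · rintro ⟨L, ⟨hL, h7⟩, rfl⟩
        exact ⟨g L, ⟨⟨L, hL, rfl⟩, h7⟩, rfl⟩
    have h7 : ∑ c ∈ (S.filter (fun p => p.1 = m)).image Prod.snd, (dx S m c).card =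
        ∑ L ∈ B.filter (fun L => (g L).1 = m), (dx S (g L).1 (g L).2).card := by
      rw [h6, Finset.sum_image]
      · apply Finset.sum_congr rfl
        intro L hL
        rw [(Finset.mem_filter.mp hL).2]
      · intro L hL L' hL' h
        obtain ⟨h8, h9⟩ := Finset.mem_filter.mp (Finset.mem_coe.mp hL)
        obtain ⟨h10, h11⟩ := Finset.mem_filter.mp (Finset.mem_coe.mp hL')
        exact hginj h8 h10 (Prod.ext (h9.trans h11.symm) h)
    have hdisj : ((B.filter (fun L => (g L).1 = m) : Finset (ℙ K (Fin 3 → K))) :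
        Set (ℙ K (Fin 3 → K))).PairwiseDisjoint
        (fun L => D.filter (fun p => L.orthogonal p)) := by
      intro L hL L' hL' hne
      rw [Function.onFun, Finset.disjoint_left]
      intro q hq hq'
      obtain ⟨a1, a2⟩ := Finset.mem_filter.mp hq
      obtain ⟨b1, b2⟩ := Finset.mem_filter.mp hq'
      obtain ⟨c1, c2⟩ := Finset.mem_filter.mp (Finset.mem_coe.mp hL)
      obtain ⟨d1, d2⟩ := Finset.mem_filter.mp (Finset.mem_coe.mp hL')
      have e1 : pt m = q :=
        point_unique hne ((hLpt L c1 m).mpr c2) ((hLpt L' d1 m).mpr d2) a2 b2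
      have e2 := ((hDmem q).mp a1).1
      rw [← e1] at e2
      exact e2 (hpt m)
    have h8 : ∑ L ∈ B.filter (fun L => (g L).1 = m), (D.filter (fun p => L.orthogonal p)).card =
        ((B.filter (fun L => (g L).1 = m)).biUnion
          (fun L => D.filter (fun p => L.orthogonal p))).card :=
      (Finset.card_biUnion hdisj).symm
    have h9 : ((B.filter (fun L => (g L).1 = m)).biUnion
          (fun L => D.filter (fun p => L.orthogonal p))).card ≤ (dblAt B H (pt m)).ncard := by
      rw [← Set.ncard_coe_finset]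
      apply Set.ncard_le_ncard
      · intro q hq
        rw [Finset.mem_coe, Finset.mem_biUnion] at hq
        obtain ⟨L, hL, hq⟩ := hq
        obtain ⟨a1, a2⟩ := Finset.mem_filter.mp hq
        obtain ⟨c1, c2⟩ := Finset.mem_filter.mp hL
        exact ⟨(hDmem q).mp a1, L, c1, (hLpt L c1 m).mpr c2, a2⟩
      · exact (dbl_finite B H).subset fun q hq => hq.1
    omega

/-- At least `2 (k_p - n + 2)` double points off `H` are on the lines through the point `p` of `H`. -/
theorem local_double [CharZero K] (B : Finset (ℙ K (Fin 3 → K))) (H : ℙ K (Fin 3 → K))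
    (hH : H ∉ B) (hn : 3 ≤ {p | H.orthogonal p ∧ ∃ L ∈ B, L.orthogonal p}.ncard)
    (p : ℙ K (Fin 3 → K)) (hp : p ∈ {p | H.orthogonal p ∧ ∃ L ∈ B, L.orthogonal p}) :
    2 * (mult B p - ({p | H.orthogonal p ∧ ∃ L ∈ B, L.orthogonal p}.ncard - 2)) ≤
      (dblAt B H p).ncard := by
  obtain ⟨M, pt, hpt, htr, hmain⟩ := setup_local B H hH
  have hncard : {p | H.orthogonal p ∧ ∃ L ∈ B, L.orthogonal p}.ncard = M.card := by
    rw [htr, Set.ncard_image_of_injective _ hpt, Set.ncard_coe_finset]
  rw [hncard] at hn ⊢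
  rw [htr] at hp
  obtain ⟨m, hm, rfl⟩ := hp
  exact hmain hn m hm

end DPt
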