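import Pool.Agent.DPt.Affine
import Pool.Agent.DPt.Chart

open scoped LinearAlgebra.Projectivization

namespace DPt

open Classical

variable {K : Type*} [Field K]

/-- The number of lines of `A` through `p`. -/
noncomputable def mult (A : Finset (ℙ K (Fin 3 → K))) (p : ℙ K (Fin 3 → K)) : ℕ :=
  {L | L ∈ A ∧ L.orthogonal p}.ncard

lemma mult_eq (A : Finset (ℙ K (Fin 3 → K))) (p : ℙ K (Fin 3 → K)) :
    mult A p = (A.filter (fun L => L.orthogonal p)).card := by
  unfold mult
  rw [← Set.ncard_coe_finset]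
  congr 1
  ext L
  simp

lemma third_line {B : Finset (ℙ K (Fin 3 → K))} {p L M : ℙ K (Fin 3 → K)} (hL : L ∈ B)
    (hM : M ∈ B) (hLM : L ≠ M) (hLp : L.orthogonal p) (hMp : M.orthogonal p)
    (h2 : mult B p ≠ 2) : ∃ N ∈ B, N ≠ L ∧ N ≠ M ∧ N.orthogonal p := by
  rw [mult_eq] at h2
  have hsub : ({L, M} : Finset _) ⊆ B.filter (fun L => L.orthogonal p) := by
    intro N hN
    rcases Finset.mem_insert.mp hN with rfl | hN
    · exact Finset.mem_filter.mpr ⟨hL, hLp⟩
    · rw [Finset.mem_singleton.mp hN]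
      exact Finset.mem_filter.mpr ⟨hM, hMp⟩
  have hcard : ({L, M} : Finset (ℙ K (Fin 3 → K))).card = 2 := Finset.card_pair hLM
  have hlt : ({L, M} : Finset (ℙ K (Fin 3 → K))).card <
      (B.filter (fun L => L.orthogonal p)).card := by
    rw [hcard]
    have := Finset.card_le_card hsub
    rw [hcard] at this
    omega
  obtain ⟨N, hN, hNn⟩ := Finset.exists_mem_notMem_of_card_lt_card hlt
  obtain ⟨h3, h4⟩ := Finset.mem_filter.mp hN
  refine ⟨N, h3, ?_, ?_, h4⟩
  · rintro rfl; exact hNn (Finset.mem_insert_self _ _)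
  · rintro rfl; exact hNn (Finset.mem_insert_of_mem (Finset.mem_singleton_self _))

lemma point_unique {L M p q : ℙ K (Fin 3 → K)} (hLM : L ≠ M) (h1 : L.orthogonal p)
    (h2 : M.orthogonal p) (h3 : L.orthogonal q) (h4 : M.orthogonal q) : p = q :=
  (Configuration.ofField.eq_or_eq_of_orthogonal h1 h2 h3 h4).resolve_left hLM

/-- The points off `H` on exactly two lines of `B`. -/
def dbl (B : Finset (ℙ K (Fin 3 → K))) (H : ℙ K (Fin 3 → K)) : Set (ℙ K (Fin 3 → K)) :=
  {p | ¬ H.orthogonal p ∧ mult B p = 2}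

lemma dbl_eq_empty {B : Finset (ℙ K (Fin 3 → K))} {H : ℙ K (Fin 3 → K)}
    (h : ∀ p, ¬ H.orthogonal p → mult B p ≠ 2) : dbl B H = ∅ := by
  rw [Set.eq_empty_iff_forall_notMem]
  rintro p ⟨h1, h2⟩
  exact h p h1 h2

lemma dbl_finite (B : Finset (ℙ K (Fin 3 → K))) (H : ℙ K (Fin 3 → K)) : (dbl B H).Finite := by
  apply Set.Finite.subset ((B ×ˢ B).image
    (fun z => Projectivization.cross z.1 z.2)).finite_toSet
  rintro p ⟨_, hp⟩
  rw [mult_eq, Finset.card_eq_two] at hp
  obtain ⟨L, M, hLM, hF⟩ := hp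
  have hL : L ∈ B.filter (fun L => L.orthogonal p) := by rw [hF]; simp
  have hM : M ∈ B.filter (fun L => L.orthogonal p) := by rw [hF]; simp
  obtain ⟨hLB, hLp⟩ := Finset.mem_filter.mp hL
  obtain ⟨hMB, hMp⟩ := Finset.mem_filter.mp hM
  rw [Finset.mem_coe, Finset.mem_image]
  refine ⟨(L, M), Finset.mem_product.mpr ⟨hLB, hMB⟩, ?_⟩
  exact point_unique hLM (Projectivization.orthogonal_cross_left hLM)
    (Projectivization.orthogonal_cross_right hLM) hLp hMp

/-- The affine picture. -/
theorem setup [CharZero K] (B : Finset (ℙ K (Fin 3 → K))) (H : ℙ K (Fin 3 → K)) (hH : H ∉ B) :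
    ∃ (M : Finset K) (pt : K → ℙ K (Fin 3 → K)), Function.Injective pt ∧
      {p | H.orthogonal p ∧ ∃ L ∈ B, L.orthogonal p} = pt '' (M : Set K) ∧
      B.card = ∑ m ∈ M, mult B (pt m) ∧
      (dbl B H = ∅ → 2 ≤ M.card → ∀ m, mult B (pt m) + 2 ≤ M.card) ∧
      (3 ≤ M.card → ∑ m ∈ M, (mult B (pt m) - (M.card - 2)) ≤ (dbl B H).ncard) := by
  obtain ⟨g, pt, aff, hginj, hptinj, haffinj, hpt, hLpt, htr, haff, _, hLaff⟩ :=
    exists_chart B H hH
  set S : Finset (K × K) := B.image g with hS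
  have hScard : S.card = B.card := Finset.card_image_of_injOn hginj
  have hmult : ∀ m, mult B (pt m) = (S.filter (fun p => p.1 = m)).card := by
    intro m
    rw [mult_eq]
    have h1 : S.filter (fun p => p.1 = m) =
        (B.filter (fun L => L.orthogonal (pt m))).image g := by
      ext z
      simp only [hS, Finset.mem_filter, Finset.mem_image]
      constructor
      · rintro ⟨⟨L, hL, rfl⟩, h⟩
        exact ⟨L, ⟨hL, (hLpt L hL m).mpr h⟩, rfl⟩
      · rintro ⟨L, ⟨hL, h⟩, rfl⟩
        exact ⟨⟨L, hL, rfl⟩, (hLpt L hL m).mp h⟩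
    rw [h1, Finset.card_image_of_injOn]
    intro L hL L' hL' h
    exact hginj (Finset.mem_filter.mp (Finset.mem_coe.mp hL)).1
      (Finset.mem_filter.mp (Finset.mem_coe.mp hL')).1 h
  have hXcard : ∀ m, ((S.filter (fun p => p.1 = m)).image Prod.snd).card = mult B (pt m) := by
    intro m
    rw [hmult m]
    apply Finset.card_image_of_injOn
    intro p hp q hq h
    have hp' := (Finset.mem_filter.mp (Finset.mem_coe.mp hp)).2
    have hq' := (Finset.mem_filter.mp (Finset.mem_coe.mp hq)).2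
    exact Prod.ext (hp'.trans hq'.symm) h
  -- simple crossings are double points off `H`
  have hdx : ∀ L ∈ B, ∀ x ∈ dx S (g L).1 (g L).2,
      L.orthogonal (aff (x, (g L).1 * x + (g L).2)) ∧
      aff (x, (g L).1 * x + (g L).2) ∈ dbl B H := by
    intro L hL x hx
    rw [mem_dx] at hx
    obtain ⟨⟨q, hq, hqμ, hxq⟩, htr3⟩ := hx
    obtain ⟨M, hM, rfl⟩ := Finset.mem_image.mp hq
    have hLP : L.orthogonal (aff (x, (g L).1 * x + (g L).2)) :=
      (hLaff L hL _ _).mpr rfl
    have hMP : M.orthogonal (aff (x, (g L).1 * x + (g L).2)) := by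
      rw [hLaff M hM]; exact hxq
    refine ⟨hLP, haff _, ?_⟩
    have hLM : L ≠ M := by
      rintro rfl; exact hqμ rfl
    rw [mult_eq]
    have : B.filter (fun N => N.orthogonal (aff (x, (g L).1 * x + (g L).2))) = {L, M} := by
      ext N
      simp only [Finset.mem_filter, Finset.mem_insert, Finset.mem_singleton]
      constructor
      · rintro ⟨hN, hNP⟩
        rw [hLaff N hN] at hNP
        by_cases hNμ : (g N).1 = (g L).1
        · left
          apply hginj hN hL
          apply Prod.ext hNμ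
          rw [hNμ] at hNP
          exact (add_left_cancel hNP).symm
        · right
          by_contra hNM
          apply htr3
          refine ⟨g M, hq, g N, Finset.mem_image_of_mem _ hN, hqμ, hNμ, ?_, hxq, hNP⟩
          intro h
          exact hNM (hginj hM hN h).symm
      · rintro (rfl | rfl)
        · exact ⟨hL, hLP⟩
        · exact ⟨hM, hMP⟩
    rw [this, Finset.card_pair hLM]
  refine ⟨S.image Prod.fst, pt, hptinj, ?_, ?_, ?_, ?_⟩
  · ext p
    simp only [Set.mem_ofPred_eq, Set.mem_image, Finset.mem_coe]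
    constructor
    · rintro ⟨hp, L, hL, hLp⟩
      obtain ⟨m, rfl⟩ := htr p hp ⟨L, hL, hLp⟩
      refine ⟨m, ?_, rfl⟩
      rw [Finset.mem_image]
      exact ⟨g L, Finset.mem_image_of_mem _ hL, (hLpt L hL m).mp hLp⟩
    · rintro ⟨m, hm, rfl⟩
      obtain ⟨z, hz, rfl⟩ := Finset.mem_image.mp hm
      obtain ⟨L, hL, rfl⟩ := Finset.mem_image.mp hz
      exact ⟨hpt _, L, hL, (hLpt L hL _).mpr rfl⟩
  · rw [← hScard, Finset.card_eq_sum_card_image Prod.fst S]
    exact Finset.sum_congr rfl (fun m _ => (hmult m).symm)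
  · intro hdbl h2 m
    by_cases hm : m ∈ S.image Prod.fst
    · rw [← hXcard m]
      apply class_bound' S m hm h2
      intro c hc
      obtain ⟨L, hL, hgL⟩ := Finset.mem_image.mp hc
      rw [Finset.eq_empty_iff_forall_notMem]
      intro x hx
      have := (hdx L hL x (by rw [hgL]; exact hx)).2
      rw [hdbl] at this
      exact this
    · have h0 : mult B (pt m) = 0 := by
        rw [hmult m, Finset.card_eq_zero, Finset.filter_eq_empty_iff]
        intro p hp h
        exact hm (Finset.mem_image.mpr ⟨p, hp, h⟩)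
      omega
  · intro h3
    set D : Finset (ℙ K (Fin 3 → K)) := (dbl_finite B H).toFinset with hD
    have hDmem : ∀ p, p ∈ D ↔ p ∈ dbl B H := fun p => Set.Finite.mem_toFinset _
    have hDcard : (dbl B H).ncard = D.card := Set.ncard_eq_toFinset_card _ _
    rw [hDcard]
    -- double counting
    have hdc : ∑ L ∈ B, (D.filter (fun p => L.orthogonal p)).card = 2 * D.card := by
      have h4 : ∑ L ∈ B, (D.filter (fun p => L.orthogonal p)).card =
          ∑ p ∈ D, (B.filter (fun L => L.orthogonal p)).card :=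
        Finset.sum_card_bipartiteAbove_eq_sum_card_bipartiteBelow
          (fun (L : ℙ K (Fin 3 → K)) (p : ℙ K (Fin 3 → K)) => L.orthogonal p)
      rw [h4]
      have h5 : ∀ p ∈ D, (B.filter (fun L => L.orthogonal p)).card = 2 := by
        intro p hp
        rw [← mult_eq]
        exact ((hDmem p).mp hp).2
      rw [Finset.sum_congr rfl h5, Finset.sum_const, smul_eq_mul]; ring
    have hδ : ∀ L ∈ B, (dx S (g L).1 (g L).2).card ≤
        (D.filter (fun p => L.orthogonal p)).card := by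
      intro L hL
      apply Finset.card_le_card_of_injOn (fun x => aff (x, (g L).1 * x + (g L).2))
      · intro x hx
        obtain ⟨h4, h5⟩ := hdx L hL x hx
        exact Finset.mem_filter.mpr ⟨(hDmem _).mpr h5, h4⟩
      · intro x _ x' _ h
        exact congrArg Prod.fst (haffinj h)
    have hmaps : ∀ L ∈ B, (g L).1 ∈ S.image Prod.fst := fun L hL =>
      Finset.mem_image_of_mem _ (Finset.mem_image_of_mem _ hL)
    have hfib := Finset.sum_fiberwise_of_maps_to hmaps
      (fun L => (D.filter (fun p => L.orthogonal p)).card)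
    have hclass : ∀ m ∈ S.image Prod.fst,
        2 * (mult B (pt m) - ((S.image Prod.fst).card - 2)) ≤
        ∑ L ∈ B.filter (fun L => (g L).1 = m), (D.filter (fun p => L.orthogonal p)).card := by
      intro m hm
      have h4 := class_bound S m hm h3
      rw [hXcard m] at h4
      refine le_trans h4 ?_
      have h5 : ∑ L ∈ B.filter (fun L => (g L).1 = m), (dx S (g L).1 (g L).2).card ≤
          ∑ L ∈ B.filter (fun L => (g L).1 = m),
            (D.filter (fun p => L.orthogonal p)).card :=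
        Finset.sum_le_sum (fun L hL => hδ L (Finset.mem_filter.mp hL).1)
      refine le_trans (le_of_eq ?_) h5
      have h6 : (S.filter (fun p => p.1 = m)).image Prod.snd =
          (B.filter (fun L => (g L).1 = m)).image (fun L => (g L).2) := by
        ext c
        simp only [hS, Finset.mem_image, Finset.mem_filter]
        constructor
        · rintro ⟨p, ⟨⟨L, hL, rfl⟩, h7⟩, rfl⟩
          exact ⟨L, ⟨hL, h7⟩, rfl⟩
        · rintro ⟨L, ⟨hL, h7⟩, rfl⟩
          exact ⟨g L, ⟨⟨L, hL, rfl⟩, h7⟩, rfl⟩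
      rw [h6, Finset.sum_image]
      · apply Finset.sum_congr rfl
        intro L hL
        rw [(Finset.mem_filter.mp hL).2]
      · intro L hL L' hL' h
        obtain ⟨h8, h9⟩ := Finset.mem_filter.mp (Finset.mem_coe.mp hL)
        obtain ⟨h10, h11⟩ := Finset.mem_filter.mp (Finset.mem_coe.mp hL')
        exact hginj h8 h10 (Prod.ext (h9.trans h11.symm) h)
    have htot := Finset.sum_le_sum hclass
    rw [hfib, hdc, ← Finset.mul_sum] at htot
    omega

/-- Every line meets `H`. -/
lemma exists_meet {L H : ℙ K (Fin 3 → K)} (h : L ≠ H) :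
    ∃ p : ℙ K (Fin 3 → K), H.orthogonal p ∧ L.orthogonal p := by
  exact ⟨Projectivization.cross L H, Projectivization.orthogonal_cross_right h,
    Projectivization.orthogonal_cross_left h⟩

/-- At most four lines without a double point form a pencil. -/
theorem pencil_of_card_le_four (B : Finset (ℙ K (Fin 3 → K))) (hB : B.card ≤ 4)
    (h2 : ∀ p, mult B p ≠ 2) (H : ℙ K (Fin 3 → K)) (hH : H ∉ B) :
    ∃ p : ℙ K (Fin 3 → K), ∀ L ∈ B, L.orthogonal p := by
  by_cases hex : ∃ L ∈ B, ∃ M ∈ B, L ≠ M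
  · obtain ⟨L, hL, M, hM, hLM⟩ := hex
    obtain ⟨P, hMP, hLP⟩ := exists_meet hLM
    refine ⟨P, ?_⟩
    by_contra hcon
    push Not at hcon
    obtain ⟨N, hN, hNP⟩ := hcon
    obtain ⟨R, hR, hRL, hRM, hRP⟩ := third_line hL hM hLM hLP hMP (h2 P)
    have hNL : N ≠ L := by rintro rfl; exact hNP hLP
    have hNM : N ≠ M := by rintro rfl; exact hNP hMP
    have hNR : N ≠ R := by rintro rfl; exact hNP hRP
    -- B consists of these four lines
    have hsub : ({N, L, M, R} : Finset (ℙ K (Fin 3 → K))) ⊆ B := by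
      intro X hX
      simp only [Finset.mem_insert, Finset.mem_singleton] at hX
      rcases hX with rfl | rfl | rfl | rfl <;> assumption
    have hc4 : ({N, L, M, R} : Finset (ℙ K (Fin 3 → K))).card = 4 := by
      rw [Finset.card_insert_of_notMem, Finset.card_insert_of_notMem,
        Finset.card_pair hRM.symm]
      · simp only [Finset.mem_insert, Finset.mem_singleton, not_or]
        exact ⟨hLM, hRL.symm⟩
      · simp only [Finset.mem_insert, Finset.mem_singleton, not_or]
        exact ⟨hNL, hNM, hNR⟩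
    have hBeq : ({N, L, M, R} : Finset (ℙ K (Fin 3 → K))) = B :=
      Finset.eq_of_subset_of_card_le hsub (by rw [hc4]; exact hB)
    obtain ⟨Q, hNQ, hLQ⟩ := exists_meet hNL.symm
    obtain ⟨T, hT, hTL, hTN, hTQ⟩ := third_line hL hN hNL.symm hLQ hNQ (h2 Q)
    have hTP : T.orthogonal P := by
      rw [← hBeq] at hT
      simp only [Finset.mem_insert, Finset.mem_singleton] at hT
      rcases hT with rfl | rfl | rfl | rfl
      · exact absurd rfl hTN
      · exact absurd rfl hTL
      · exact hMP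
      · exact hRP
    have hPQ : P = Q := point_unique hTL hTP hLP hTQ hLQ
    exact hNP (by rw [hPQ]; exact hNQ)
  · push Not at hex
    by_cases hne : B.Nonempty
    · obtain ⟨L, hL⟩ := hne
      have hLH : L ≠ H := by rintro rfl; exact hH hL
      obtain ⟨P, _, hLP⟩ := exists_meet hLH
      exact ⟨P, fun M hM => by rw [← hex L hL M hM]; exact hLP⟩
    · rw [Finset.not_nonempty_iff_eq_empty] at hne
      subst hne
      exact ⟨H, fun L hL => absurd hL (Finset.notMem_empty L)⟩

/-- The main theorem for `B` and a line `H` outside `B`. -/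
theorem main_bound [CharZero K] (B : Finset (ℙ K (Fin 3 → K))) (H : ℙ K (Fin 3 → K))
    (hH : H ∉ B) (hdbl : ∀ p, ¬ H.orthogonal p → mult B p ≠ 2)
    (hn : 2 ≤ {p | H.orthogonal p ∧ ∃ L ∈ B, L.orthogonal p}.ncard) :
    (∀ p, H.orthogonal p →
      mult B p + 2 ≤ {p | H.orthogonal p ∧ ∃ L ∈ B, L.orthogonal p}.ncard) ∧
    B.card ≤ {p | H.orthogonal p ∧ ∃ L ∈ B, L.orthogonal p}.ncard *
      ({p | H.orthogonal p ∧ ∃ L ∈ B, L.orthogonal p}.ncard - 2) := by
  obtain ⟨M, pt, hpt, htr, hcard, hmain, _⟩ := setup B H hH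
  have hncard : {p | H.orthogonal p ∧ ∃ L ∈ B, L.orthogonal p}.ncard = M.card := by
    rw [htr, Set.ncard_image_of_injective _ hpt, Set.ncard_coe_finset]
  rw [hncard] at hn ⊢
  have hb := hmain (dbl_eq_empty hdbl) hn
  refine ⟨?_, ?_⟩
  · intro p hp
    by_cases hex : ∃ L ∈ B, L.orthogonal p
    · have hmem : p ∈ pt '' (M : Set K) := by
        rw [← htr]; exact ⟨hp, hex⟩
      obtain ⟨m, _, rfl⟩ := hmem
      exact hb m
    · have h0 : mult B p = 0 := by
        rw [mult_eq, Finset.card_eq_zero, Finset.filter_eq_empty_iff]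
        intro L hL h
        exact hex ⟨L, hL, h⟩
      omega
  · rw [hcard]
    calc ∑ m ∈ M, mult B (pt m) ≤ ∑ _m ∈ M, (M.card - 2) :=
          Finset.sum_le_sum (fun m _ => by have := hb m; omega)
      _ = M.card * (M.card - 2) := by rw [Finset.sum_const, smul_eq_mul]

/-- With at most one point on `H` the lines form a pencil. -/
theorem pencil_of_ncard_le_one [CharZero K] (B : Finset (ℙ K (Fin 3 → K)))
    (H : ℙ K (Fin 3 → K)) (hH : H ∉ B)
    (hn : {p | H.orthogonal p ∧ ∃ L ∈ B, L.orthogonal p}.ncard ≤ 1) :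
    ∃ p, H.orthogonal p ∧ ∀ L ∈ B, L.orthogonal p := by
  obtain ⟨M, pt, hpt, htr, _, _, _⟩ := setup B H hH
  have hfin : {p | H.orthogonal p ∧ ∃ L ∈ B, L.orthogonal p}.Finite := by
    rw [htr]; exact M.finite_toSet.image _
  by_cases hne : B.Nonempty
  · obtain ⟨L, hL⟩ := hne
    have hLH : L ≠ H := by rintro rfl; exact hH hL
    obtain ⟨P, hHP, hLP⟩ := exists_meet hLH
    refine ⟨P, hHP, ?_⟩
    intro N hN
    have hNH : N ≠ H := by rintro rfl; exact hH hN
    obtain ⟨Q, hHQ, hNQ⟩ := exists_meet hNH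
    have := (Set.ncard_le_one hfin).mp hn P ⟨hHP, L, hL, hLP⟩ Q ⟨hHQ, N, hN, hNQ⟩
    rw [this]; exact hNQ
  · rw [Finset.not_nonempty_iff_eq_empty] at hne
    subst hne
    obtain ⟨_, pt', _, _, _, _, hpt', _⟩ := exists_chart (∅ : Finset (ℙ K (Fin 3 → K))) H
      (Finset.notMem_empty H)
    exact ⟨pt' 0, hpt' 0, fun L hL => absurd hL (Finset.notMem_empty L)⟩

/-- No double points at all, `H` outside: at least five points on `H`. -/
theorem five_le [CharZero K] (B : Finset (ℙ K (Fin 3 → K))) (H : ℙ K (Fin 3 → K))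
    (hH : H ∉ B) (h2 : ∀ p, mult B p ≠ 2) (hpen : ¬ ∃ p, ∀ L ∈ B, L.orthogonal p) :
    5 ≤ {p | H.orthogonal p ∧ ∃ L ∈ B, L.orthogonal p}.ncard := by
  by_contra hcon
  push Not at hcon
  by_cases hn : {p | H.orthogonal p ∧ ∃ L ∈ B, L.orthogonal p}.ncard ≤ 1
  · obtain ⟨p, _, hp⟩ := pencil_of_ncard_le_one B H hH hn
    exact hpen ⟨p, hp⟩
  · push Not at hn
    obtain ⟨M, pt, hpt, htr, hcard, hmain, _⟩ := setup B H hH
    have hncard : {p | H.orthogonal p ∧ ∃ L ∈ B, L.orthogonal p}.ncard = M.card := by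
      rw [htr, Set.ncard_image_of_injective _ hpt, Set.ncard_coe_finset]
    rw [hncard] at hcon hn
    have hb := hmain (dbl_eq_empty (fun p _ => h2 p)) (by omega)
    apply hpen
    apply pencil_of_card_le_four B _ h2 H hH
    rw [hcard]
    calc ∑ m ∈ M, mult B (pt m) ≤ ∑ _m ∈ M, 1 :=
          Finset.sum_le_sum (fun m _ => by have := hb m; have := h2 (pt m); omega)
      _ = M.card := by simp
      _ ≤ 4 := by omega

lemma mult_insert (B : Finset (ℙ K (Fin 3 → K))) (H p : ℙ K (Fin 3 → K)) (hH : H ∉ B) :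
    mult (insert H B) p = mult B p + (if H.orthogonal p then 1 else 0) := by
  rw [mult_eq, mult_eq, Finset.filter_insert]
  split_ifs with h
  · rw [Finset.card_insert_of_notMem]
    intro h1
    exact hH (Finset.mem_filter.mp h1).1
  · simp

/-- No double points at all, `H` inside: at least four points on `H`, four only for nine lines. -/
theorem four_le [CharZero K] (B : Finset (ℙ K (Fin 3 → K))) (H : ℙ K (Fin 3 → K))
    (hH : H ∉ B) (h2 : ∀ p, mult (insert H B) p ≠ 2)
    (hpen : ¬ ∃ p, ∀ L ∈ insert H B, L.orthogonal p) :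
    4 ≤ {p | H.orthogonal p ∧ ∃ L ∈ B, L.orthogonal p}.ncard ∧
    ({p | H.orthogonal p ∧ ∃ L ∈ B, L.orthogonal p}.ncard = 4 → B.card = 8) := by
  obtain ⟨M, pt, hpt, htr, hcard, hmain, _⟩ := setup B H hH
  have hncard : {p | H.orthogonal p ∧ ∃ L ∈ B, L.orthogonal p}.ncard = M.card := by
    rw [htr, Set.ncard_image_of_injective _ hpt, Set.ncard_coe_finset]
  have hdbl : ∀ p, ¬ H.orthogonal p → mult B p ≠ 2 := by
    intro p hp
    have := h2 p
    rw [mult_insert B H p hH, if_neg hp] at this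
    simpa using this
  have hge : ∀ m ∈ M, 2 ≤ mult B (pt m) := by
    intro m hm
    have hmem : pt m ∈ {p | H.orthogonal p ∧ ∃ L ∈ B, L.orthogonal p} := by
      rw [htr]; exact ⟨m, hm, rfl⟩
    obtain ⟨h3, L, hL, h4⟩ := hmem
    have h5 := h2 (pt m)
    rw [mult_insert B H _ hH, if_pos h3] at h5
    have h6 : 0 < mult B (pt m) := by
      rw [mult_eq, Finset.card_pos]
      exact ⟨L, Finset.mem_filter.mpr ⟨hL, h4⟩⟩
    omega
  have hn2 : 2 ≤ M.card := by
    by_contra hcon
    push Not at hcon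
    obtain ⟨p, hHp, hp⟩ := pencil_of_ncard_le_one B H hH (by rw [hncard]; omega)
    apply hpen
    refine ⟨p, ?_⟩
    intro L hL
    rcases Finset.mem_insert.mp hL with rfl | hL
    · exact hHp
    · exact hp L hL
  have hb := hmain (dbl_eq_empty hdbl) hn2
  rw [hncard]
  have hMne : M.Nonempty := by rw [← Finset.card_pos]; omega
  obtain ⟨m0, hm0⟩ := hMne
  have h7 := hge m0 hm0
  have h8 := hb m0
  refine ⟨by omega, ?_⟩
  intro h4
  rw [hcard]
  have h9 : ∀ m ∈ M, mult B (pt m) = 2 := by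
    intro m hm
    have h10 := hge m hm
    have h11 := hb m
    omega
  rw [Finset.sum_congr rfl h9, Finset.sum_const, h4]
  rfl

/-- Many double points off `H`. -/
theorem many_double [CharZero K] (B : Finset (ℙ K (Fin 3 → K))) (H : ℙ K (Fin 3 → K))
    (hH : H ∉ B) (hn : 3 ≤ {p | H.orthogonal p ∧ ∃ L ∈ B, L.orthogonal p}.ncard) :
    ∑ᶠ p ∈ {p | H.orthogonal p ∧ ∃ L ∈ B, L.orthogonal p},
      (mult B p - ({p | H.orthogonal p ∧ ∃ L ∈ B, L.orthogonal p}.ncard - 2)) ≤
      (dbl B H).ncard ∧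
    B.card ≤ {p | H.orthogonal p ∧ ∃ L ∈ B, L.orthogonal p}.ncard *
      ({p | H.orthogonal p ∧ ∃ L ∈ B, L.orthogonal p}.ncard - 2) + (dbl B H).ncard := by
  obtain ⟨M, pt, hpt, htr, hcard, _, hmain⟩ := setup B H hH
  have hncard : {p | H.orthogonal p ∧ ∃ L ∈ B, L.orthogonal p}.ncard = M.card := by
    rw [htr, Set.ncard_image_of_injective _ hpt, Set.ncard_coe_finset]
  rw [hncard] at hn ⊢
  have h1 := hmain hn
  refine ⟨?_, ?_⟩
  · rw [htr, finsum_mem_image hpt.injOn, finsum_mem_coe_finset]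
    exact h1
  · rw [hcard]
    have h3 : ∑ m ∈ M, mult B (pt m) ≤
        ∑ m ∈ M, ((mult B (pt m) - (M.card - 2)) + (M.card - 2)) :=
      Finset.sum_le_sum (fun m _ => by omega)
    rw [Finset.sum_add_distrib, Finset.sum_const, smul_eq_mul] at h3
    omega

end DPt
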