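import Mathlib

namespace DPt

section Rect

variable {r : ℕ} [NeZero r] (a y : ZMod r → ℝ)

/-- Indicator of `a s < x`. -/
noncomputable def gg (s : ZMod r) (x : ℝ) : ℝ := if a s < x then 1 else 0

/-- Indicator of `z < y s`. -/
noncomputable def hh (s : ZMod r) (z : ℝ) : ℝ := if z < y s then 1 else 0

/-- The winding number. -/
noncomputable def WW (x z : ℝ) : ℝ := ∑ s, gg a s x * (hh y (s - 1) z - hh y s z)

/-- The winding number just left of the vertical edge `s`. -/
noncomputable def VV (s : ZMod r) : ℝ :=
  ∑ q, (if max (y (s - 1)) (y s) ≤ y q then 1 else 0) * (gg a (q + 1) (a s) - gg a q (a s))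

/-- Indicator of a downward vertical edge. -/
noncomputable def dn (s : ZMod r) : ℝ := if y s < y (s - 1) then 1 else 0

lemma WW_eq (x z : ℝ) : WW a y x z = ∑ q, hh y q z * (gg a (q + 1) x - gg a q x) := by
  unfold WW
  simp_rw [mul_sub]
  rw [Finset.sum_sub_distrib, Finset.sum_sub_distrib]
  have h1 : ∑ s, gg a s x * hh y (s - 1) z = ∑ q, hh y q z * gg a (q + 1) x := by
    rw [← Equiv.sum_comp (Equiv.addRight (1 : ZMod r)) (fun s => gg a s x * hh y (s - 1) z)]
    apply Finset.sum_congr rfl
    intro q _
    simp only [Equiv.coe_addRight, add_sub_cancel_right]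
    ring
  have h2 : ∑ s, gg a s x * hh y s z = ∑ q, hh y q z * gg a q x := by
    apply Finset.sum_congr rfl
    intro q _
    ring
  rw [h1, h2]

/-- The hypothesis of simplicity. -/
def Simple : Prop := ∀ q s : ZMod r, s ≠ q → s ≠ q + 1 →
  ((y (s - 1) < y q ∧ y q < y s) ∨ (y s < y q ∧ y q < y (s - 1))) →
  0 < (a q - a s) * (a (q + 1) - a s)

variable {a y}

lemma W_edge (hF : Simple a y) (s : ZMod r) (z : ℝ) (h1 : min (y (s - 1)) (y s) ≤ z)
    (h2 : z < max (y (s - 1)) (y s)) : WW a y (a s) z = VV a y s := by
  rw [WW_eq]
  unfold VV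
  apply Finset.sum_congr rfl
  intro q _
  by_cases hq : max (y (s - 1)) (y s) ≤ y q
  · have : hh y q z = 1 := by
      unfold hh; rw [if_pos (lt_of_lt_of_le h2 hq)]
    rw [this, if_pos hq]
  · rw [if_neg hq, zero_mul]
    by_cases hq2 : y q ≤ min (y (s - 1)) (y s)
    · have : hh y q z = 0 := by
        unfold hh; rw [if_neg (not_lt.mpr (le_trans hq2 h1))]
      rw [this, zero_mul]
    · push Not at hq hq2
      have hbet : (y (s - 1) < y q ∧ y q < y s) ∨ (y s < y q ∧ y q < y (s - 1)) := by
        rcases le_total (y (s - 1)) (y s) with h | h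
        · rw [max_eq_right h] at hq
          rw [min_eq_left h] at hq2
          exact Or.inl ⟨hq2, hq⟩
        · rw [max_eq_left h] at hq
          rw [min_eq_right h] at hq2
          exact Or.inr ⟨hq2, hq⟩
      have hsq : s ≠ q := by
        rintro rfl
        rcases hbet with h | h
        · exact lt_irrefl _ h.2
        · exact lt_irrefl _ h.1
      have hsq1 : s ≠ q + 1 := by
        rintro rfl
        rw [add_sub_cancel_right] at hbet
        rcases hbet with h | h
        · exact lt_irrefl _ h.1
        · exact lt_irrefl _ h.2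
      have h3 := hF q s hsq hsq1 hbet
      have h4 : gg a (q + 1) (a s) = gg a q (a s) := by
        unfold gg
        rcases pos_and_pos_or_neg_and_neg_of_mul_pos h3 with ⟨h5, h6⟩ | ⟨h5, h6⟩
        · rw [if_neg (by linarith), if_neg (by linarith)]
        · rw [if_pos (by linarith), if_pos (by linarith)]
      rw [h4, sub_self, mul_zero]

lemma sub_one_ne (hr : 2 ≤ r) (s : ZMod r) : s - 1 ≠ s := by
  intro h
  have h1 : (1 : ZMod r) = 0 := sub_eq_self.mp h
  have : Fact (1 < r) := ⟨by omega⟩
  exact one_ne_zero h1

lemma W_step_right (ha : Function.Injective a) (hy : Function.Injective y) (hF : Simple a y)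
    (s : ZMod r) (h : a s < a (s + 1)) :
    WW a y (a (s + 1)) (y s) = WW a y (a s) (y s) + dn y s := by
  have h1 : WW a y (a (s + 1)) (y s) - WW a y (a s) (y s) = dn y s := by
    unfold WW
    rw [← Finset.sum_sub_distrib, Finset.sum_eq_single s]
    · unfold gg hh dn
      rw [if_pos h, if_neg (lt_irrefl (a s)), if_neg (lt_irrefl (y s))]
      ring
    · intro t _ hts
      rw [← sub_mul]
      by_cases h2 : a s < a t ∧ a t < a (s + 1)
      · have hts1 : t ≠ s + 1 := by
          rintro rfl
          exact lt_irrefl _ h2.2
        have hnb : ¬ ((y (t - 1) < y s ∧ y s < y t) ∨ (y t < y s ∧ y s < y (t - 1))) := by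
          intro hb
          have h3 := hF s t hts hts1 hb
          have h4 : (a s - a t) * (a (s + 1) - a t) < 0 :=
            mul_neg_of_neg_of_pos (by linarith [h2.1]) (by linarith [h2.2])
          linarith
        have hne1 : y s ≠ y t := fun e => hts (hy e).symm
        have hne2 : y s ≠ y (t - 1) := fun e => hts1 (by rw [hy e]; ring)
        have h5 : hh y (t - 1) (y s) = hh y t (y s) := by
          unfold hh
          push Not at hnb
          rcases lt_or_gt_of_ne hne1 with h6 | h6
          · rcases lt_or_gt_of_ne hne2 with h7 | h7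
            · rw [if_pos h6, if_pos h7]
            · exact absurd h6 (not_lt.mpr (hnb.1 h7))
          · rcases lt_or_gt_of_ne hne2 with h7 | h7
            · exact absurd h7 (not_lt.mpr (hnb.2 h6))
            · rw [if_neg (by linarith), if_neg (by linarith)]
        rw [h5, sub_self, mul_zero]
      · have h5 : gg a t (a (s + 1)) = gg a t (a s) := by
          unfold gg
          by_cases h6 : a t < a s
          · rw [if_pos h6, if_pos (by linarith)]
          · rw [if_neg h6]
            by_cases h7 : a t < a (s + 1)
            · exfalso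
              apply h2
              refine ⟨lt_of_le_of_ne (not_lt.mp h6) ?_, h7⟩
              intro e
              exact hts (ha e).symm
            · rw [if_neg h7]
        rw [h5, sub_self, zero_mul]
    · intro h2
      exact absurd (Finset.mem_univ s) h2
  linarith

lemma W_step_left (ha : Function.Injective a) (hy : Function.Injective y) (hF : Simple a y)
    (s : ZMod r) (h : a (s + 1) < a s) :
    WW a y (a (s + 1)) (y s) = WW a y (a s) (y s) + (1 - dn y (s + 1)) := by
  have hss : s + 1 ≠ s := by
    intro e; rw [e] at h; exact lt_irrefl _ h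
  have h1 : WW a y (a s) (y s) - WW a y (a (s + 1)) (y s) = -(1 - dn y (s + 1)) := by
    unfold WW
    rw [← Finset.sum_sub_distrib, Finset.sum_eq_single (s + 1)]
    · unfold gg hh dn
      rw [add_sub_cancel_right, if_pos h, if_neg (lt_irrefl (a (s + 1))),
        if_neg (lt_irrefl (y s))]
      have hne : y (s + 1) ≠ y s := fun e => hss (hy e)
      rcases lt_or_gt_of_ne hne with h2 | h2
      · rw [if_neg (by linarith), if_pos h2]; ring
      · rw [if_pos h2, if_neg (by linarith)]; ring
    · intro t _ hts1
      rw [← sub_mul]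
      by_cases h2 : a (s + 1) < a t ∧ a t < a s
      · have hts : t ≠ s := by
          rintro rfl
          exact lt_irrefl _ h2.2
        have hnb : ¬ ((y (t - 1) < y s ∧ y s < y t) ∨ (y t < y s ∧ y s < y (t - 1))) := by
          intro hb
          have h3 := hF s t hts hts1 hb
          have h4 : (a s - a t) * (a (s + 1) - a t) < 0 :=
            mul_neg_of_pos_of_neg (by linarith [h2.2]) (by linarith [h2.1])
          linarith
        have hne1 : y s ≠ y t := fun e => hts (hy e).symm
        have hne2 : y s ≠ y (t - 1) := fun e => hts1 (by rw [hy e]; ring)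
        have h5 : hh y (t - 1) (y s) = hh y t (y s) := by
          unfold hh
          push Not at hnb
          rcases lt_or_gt_of_ne hne1 with h6 | h6
          · rcases lt_or_gt_of_ne hne2 with h7 | h7
            · rw [if_pos h6, if_pos h7]
            · exact absurd h6 (not_lt.mpr (hnb.1 h7))
          · rcases lt_or_gt_of_ne hne2 with h7 | h7
            · exact absurd h7 (not_lt.mpr (hnb.2 h6))
            · rw [if_neg (by linarith), if_neg (by linarith)]
        rw [h5, sub_self, mul_zero]
      · have h5 : gg a t (a s) = gg a t (a (s + 1)) := by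
          unfold gg
          by_cases h6 : a t < a (s + 1)
          · rw [if_pos h6, if_pos (by linarith)]
          · rw [if_neg h6]
            by_cases h7 : a t < a s
            · exfalso
              apply h2
              refine ⟨lt_of_le_of_ne (not_lt.mp h6) ?_, h7⟩
              intro e
              exact hts1 (ha e).symm
            · rw [if_neg h7]
        rw [h5, sub_self, zero_mul]
    · intro h2
      exact absurd (Finset.mem_univ (s + 1)) h2
  linarith

lemma V_step (hr : 2 ≤ r) (ha : Function.Injective a) (hy : Function.Injective y)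
    (hF : Simple a y) (s : ZMod r) :
    VV a y s + dn y s = VV a y (s + 1) + dn y (s + 1) := by
  have hss : s ≠ s + 1 := by
    intro e
    apply sub_one_ne hr (s + 1)
    rw [add_sub_cancel_right]; exact e
  -- the value below the horizontal edge
  have hle : ∀ x, ∑ q, (if y s ≤ y q then (1 : ℝ) else 0) * (gg a (q + 1) x - gg a q x) =
      WW a y x (y s) + (gg a (s + 1) x - gg a s x) := by
    intro x
    rw [WW_eq]
    have h1 : ∀ q : ZMod r, (if y s ≤ y q then (1 : ℝ) else 0) * (gg a (q + 1) x - gg a q x) =
        hh y q (y s) * (gg a (q + 1) x - gg a q x) +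
        (if q = s then (gg a (q + 1) x - gg a q x) else 0) := by
      intro q
      unfold hh
      by_cases hq : q = s
      · subst hq
        rw [if_pos le_rfl, if_neg (lt_irrefl _), if_pos rfl]; ring
      · rw [if_neg hq]
        have hne : y s ≠ y q := fun e => hq (hy e).symm
        rcases lt_or_gt_of_ne hne with h2 | h2
        · rw [if_pos h2.le, if_pos h2]; ring
        · rw [if_neg (not_le.mpr h2), if_neg (not_lt.mpr h2.le)]; ring
    rw [Finset.sum_congr rfl (fun q _ => h1 q), Finset.sum_add_distrib, Finset.sum_ite_eq' _ s]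
    simp
  -- V s
  have hVs : VV a y s + dn y s =
      WW a y (a s) (y s) + (if a s < a (s + 1) then dn y s else 1) := by
    have hne : y (s - 1) ≠ y s := fun e => sub_one_ne hr s (hy e)
    rcases lt_or_gt_of_ne hne with h1 | h1
    · have hd : dn y s = 0 := by unfold dn; rw [if_neg (by linarith)]
      have h2 : VV a y s = WW a y (a s) (y s) + (gg a (s + 1) (a s) - gg a s (a s)) := by
        rw [← hle]
        unfold VV
        rw [max_eq_right h1.le]
      rw [h2, hd]
      unfold gg
      rw [if_neg (lt_irrefl (a s))]
      by_cases h3 : a s < a (s + 1)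
      · rw [if_pos h3, if_neg (by linarith)]; ring
      · rw [if_neg h3, if_pos]
        · ring
        · exact lt_of_le_of_ne (not_lt.mp h3) (fun e => hss (ha e).symm)
    · have hd : dn y s = 1 := by unfold dn; rw [if_pos h1]
      have h2 : VV a y s = WW a y (a s) (y s) := by
        rw [W_edge hF s (y s)]
        · exact min_le_right _ _
        · rw [max_eq_left h1.le]; exact h1
      rw [h2, hd, ite_self]
  have hVs1 : VV a y (s + 1) + dn y (s + 1) =
      WW a y (a (s + 1)) (y s) + (if a s < a (s + 1) then 0 else dn y (s + 1)) := by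
    have hne : y s ≠ y (s + 1) := fun e => hss (hy e)
    rcases lt_or_gt_of_ne hne with h1 | h1
    · have hd : dn y (s + 1) = 0 := by
        unfold dn; rw [add_sub_cancel_right, if_neg (by linarith)]
      have h2 : VV a y (s + 1) = WW a y (a (s + 1)) (y s) := by
        rw [W_edge hF (s + 1) (y s)]
        · rw [add_sub_cancel_right]; exact min_le_left _ _
        · rw [add_sub_cancel_right, max_eq_right h1.le]; exact h1
      rw [h2, hd, ite_self]
    · have hd : dn y (s + 1) = 1 := by
        unfold dn; rw [add_sub_cancel_right, if_pos h1]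
      have h2 : VV a y (s + 1) = WW a y (a (s + 1)) (y s) +
          (gg a (s + 1) (a (s + 1)) - gg a s (a (s + 1))) := by
        rw [← hle]
        unfold VV
        rw [add_sub_cancel_right, max_eq_left h1.le]
      rw [h2, hd]
      unfold gg
      rw [if_neg (lt_irrefl (a (s + 1)))]
      by_cases h3 : a s < a (s + 1)
      · rw [if_pos h3, if_pos h3]; ring
      · rw [if_neg h3, if_neg h3]; ring
  rw [hVs, hVs1]
  by_cases h3 : a s < a (s + 1)
  · rw [if_pos h3, if_pos h3, W_step_right ha hy hF s h3]; ring
  · rw [if_neg h3, if_neg h3, W_step_left ha hy hF s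
      (lt_of_le_of_ne (not_lt.mp h3) (fun e => hss (ha e).symm))]
    ring

lemma V_const (hr : 2 ≤ r) (ha : Function.Injective a) (hy : Function.Injective y)
    (hF : Simple a y) (s t : ZMod r) :
    VV a y s + dn y s = VV a y t + dn y t := by
  have h1 : ∀ n : ℕ, VV a y (n : ZMod r) + dn y (n : ZMod r) = VV a y 0 + dn y 0 := by
    intro n
    induction n with
    | zero => simp
    | succ n ih =>
      rw [← ih]
      push_cast
      exact (V_step hr ha hy hF n).symm
  have h2 : ∀ s : ZMod r, VV a y s + dn y s = VV a y 0 + dn y 0 := by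
    intro s
    have := h1 s.val
    rwa [ZMod.natCast_zmod_val] at this
  rw [h2 s, h2 t]

lemma V_min (s : ZMod r) (hs : ∀ t, a s ≤ a t) : VV a y s = 0 := by
  unfold VV
  apply Finset.sum_eq_zero
  intro q _
  have h1 : ∀ t : ZMod r, gg a t (a s) = 0 := by
    intro t; unfold gg; rw [if_neg (not_lt.mpr (hs t))]
  rw [h1, h1, sub_self, mul_zero]

lemma range_of_ne {s : ZMod r} {z : ℝ} (h : hh y (s - 1) z - hh y s z ≠ 0) :
    min (y (s - 1)) (y s) ≤ z ∧ z < max (y (s - 1)) (y s) := by
  unfold hh at h
  by_cases h1 : z < y (s - 1)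
  · by_cases h2 : z < y s
    · rw [if_pos h1, if_pos h2] at h; simp at h
    · exact ⟨le_trans (min_le_right _ _) (not_lt.mp h2), lt_of_lt_of_le h1 (le_max_left _ _)⟩
  · by_cases h2 : z < y s
    · exact ⟨le_trans (min_le_left _ _) (not_lt.mp h1), lt_of_lt_of_le h2 (le_max_right _ _)⟩
    · rw [if_neg h1, if_neg h2] at h; simp at h

lemma W_nonneg (hr : 2 ≤ r) (ha : Function.Injective a) (hy : Function.Injective y)
    (hF : Simple a y) (s0 : ZMod r) (hs0 : ∀ t, a s0 ≤ a t) (hd : y s0 < y (s0 - 1))
    (x z : ℝ) : 0 ≤ WW a y x z := by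
  classical
  set I : Finset (ZMod r) := Finset.univ.filter
    (fun s => a s < x ∧ hh y (s - 1) z - hh y s z ≠ 0) with hI
  by_cases hne : I.Nonempty
  · obtain ⟨s, hsI, hmax⟩ := Finset.exists_max_image I a hne
    obtain ⟨_, hsx, hsr⟩ := Finset.mem_filter.mp hsI
    have h1 : WW a y x z = WW a y (a s) z + (hh y (s - 1) z - hh y s z) := by
      unfold WW
      have h2 : ∀ t : ZMod r, gg a t x * (hh y (t - 1) z - hh y t z) =
          gg a t (a s) * (hh y (t - 1) z - hh y t z) +
          (if t = s then (hh y (t - 1) z - hh y t z) else 0) := by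
        intro t
        by_cases ht : hh y (t - 1) z - hh y t z = 0
        · rw [ht]; simp
        · by_cases htx : a t < x
          · have htI : t ∈ I := Finset.mem_filter.mpr ⟨Finset.mem_univ t, htx, ht⟩
            have hle := hmax t htI
            by_cases hts : t = s
            · subst hts
              unfold gg
              rw [if_pos htx, if_neg (lt_irrefl _), if_pos rfl]; ring
            · have hlt : a t < a s := lt_of_le_of_ne hle (fun e => hts (ha e))
              unfold gg
              rw [if_pos htx, if_pos hlt, if_neg hts]; ring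
          · have hnlt : ¬ a t < a s := by
              intro h3; exact htx (lt_trans h3 hsx)
            have hts : t ≠ s := by
              rintro rfl; exact htx hsx
            unfold gg
            rw [if_neg htx, if_neg hnlt, if_neg hts]; ring
      rw [Finset.sum_congr rfl (fun t _ => h2 t), Finset.sum_add_distrib,
        Finset.sum_ite_eq' _ s]
      simp
    obtain ⟨hr1, hr2⟩ := range_of_ne hsr
    rw [h1, W_edge hF s z hr1 hr2]
    have h3 := V_const hr ha hy hF s s0
    rw [V_min s0 hs0] at h3
    have hd0 : dn y s0 = 1 := by unfold dn; rw [if_pos hd]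
    rw [hd0] at h3
    have hne' : y (s - 1) ≠ y s := fun e => sub_one_ne hr s (hy e)
    rcases lt_or_gt_of_ne hne' with h4 | h4
    · -- upward edge
      have hds : dn y s = 0 := by unfold dn; rw [if_neg (by linarith)]
      rw [min_eq_left h4.le] at hr1
      rw [max_eq_right h4.le] at hr2
      have h5 : hh y (s - 1) z = 0 := by unfold hh; rw [if_neg (by linarith)]
      have h6 : hh y s z = 1 := by unfold hh; rw [if_pos hr2]
      rw [h5, h6]; linarith
    · have hds : dn y s = 1 := by unfold dn; rw [if_pos h4]
      rw [min_eq_right h4.le] at hr1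
      rw [max_eq_left h4.le] at hr2
      have h5 : hh y (s - 1) z = 1 := by unfold hh; rw [if_pos hr2]
      have h6 : hh y s z = 0 := by unfold hh; rw [if_neg (by linarith)]
      rw [h5, h6]; linarith
  · have h1 : WW a y x z = 0 := by
      unfold WW
      apply Finset.sum_eq_zero
      intro t _
      by_cases ht : hh y (t - 1) z - hh y t z = 0
      · rw [ht, mul_zero]
      · have htx : ¬ a t < x := by
          intro htx
          exact hne ⟨t, Finset.mem_filter.mpr ⟨Finset.mem_univ t, htx, ht⟩⟩
        unfold gg; rw [if_neg htx, zero_mul]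
    rw [h1]

end Rect

/-- Layer cake lemma. -/
lemma layer_cake {ι : Type*} (s : Finset ι) (val d : ι → ℝ) :
    ∀ c : ℝ, (∀ i ∈ s, val i ≤ c) →
    (∀ x, x ≤ c → 0 ≤ ∑ i ∈ s.filter (fun i => val i < x), d i) →
    ∑ i ∈ s, (val i - c) * d i ≤ 0 := by
  classical
  induction s using Finset.induction_on_max_value val with
  | empty => intro c _ _; simp
  | insert m s hms hmax ih =>
    intro c hc hpre
    have hmc : val m ≤ c := hc m (Finset.mem_insert_self m s)
    have h1 := ih (val m) hmax (by
      intro x hx
      have h2 := hpre x (le_trans hx hmc)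
      rwa [Finset.filter_insert, if_neg (not_lt.mpr hx)] at h2)
    have h2 : ∑ i ∈ insert m s, (val i - c) * d i =
        ∑ i ∈ s, (val i - val m) * d i + (val m - c) * ∑ i ∈ insert m s, d i := by
      rw [Finset.sum_insert hms, Finset.sum_insert hms]
      have h3 : ∑ i ∈ s, (val i - c) * d i =
          ∑ i ∈ s, (val i - val m) * d i + (val m - c) * ∑ i ∈ s, d i := by
        rw [Finset.mul_sum, ← Finset.sum_add_distrib]
        apply Finset.sum_congr rfl
        intro i _
        ring
      rw [h3]; ring
    rw [h2]
    rcases eq_or_lt_of_le hmc with h3 | h3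
    · rw [h3, sub_self, zero_mul, add_zero]
      rw [h3] at h1; exact h1
    · have h4 := hpre c le_rfl
      have h5 : (insert m s).filter (fun i => val i < c) = insert m s := by
        apply Finset.filter_true_of_mem
        intro i hi
        rcases Finset.mem_insert.mp hi with rfl | hi
        · exact h3
        · exact lt_of_le_of_lt (hmax i hi) h3
      rw [h5] at h4
      have h6 : (val m - c) * ∑ i ∈ insert m s, d i ≤ 0 :=
        mul_nonpos_of_nonpos_of_nonneg (by linarith) h4
      linarith

lemma layer_cake' {ι : Type*} [Fintype ι] (val d : ι → ℝ) (hd : ∑ i, d i = 0)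
    (hpre : ∀ x, 0 ≤ ∑ i ∈ Finset.univ.filter (fun i => val i < x), d i) :
    ∑ i, val i * d i ≤ 0 := by
  by_cases hne : Nonempty ι
  · obtain ⟨m, _, hm⟩ := Finset.exists_max_image (Finset.univ : Finset ι) val
      Finset.univ_nonempty
    have h1 := layer_cake Finset.univ val d (val m) hm (fun x _ => hpre x)
    have h2 : ∑ i, (val i - val m) * d i = ∑ i, val i * d i - val m * ∑ i, d i := by
      rw [Finset.mul_sum, ← Finset.sum_sub_distrib]
      apply Finset.sum_congr rfl
      intro i _
      ring
    rw [h2, hd] at h1
    linarith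
  · have : IsEmpty ι := not_nonempty_iff.mp hne
    simp

section Area

variable {r : ℕ} [NeZero r] {a y : ZMod r → ℝ}

lemma area_pos (hr : 2 ≤ r) (ha : Function.Injective a) (hy : Function.Injective y)
    (hF : Simple a y) (s0 : ZMod r) (hs0 : ∀ t, a s0 ≤ a t) (hd : y s0 < y (s0 - 1)) :
    0 < ∑ s, a s * (y s - y (s - 1)) := by
  classical
  have hW := W_nonneg hr ha hy hF s0 hs0 hd
  -- vertical slices
  have hFx : ∀ x, 0 ≤ ∑ s ∈ Finset.univ.filter (fun s => a s < x), (y (s - 1) - y s) := by
    intro x
    have h1 : ∑ s ∈ Finset.univ.filter (fun s => a s < x), (y (s - 1) - y s) =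
        ∑ q, y q * (gg a (q + 1) x - gg a q x) := by
      rw [Finset.sum_filter]
      have h2 : ∀ s : ZMod r, (if a s < x then y (s - 1) - y s else 0) =
          gg a s x * y (s - 1) - gg a s x * y s := by
        intro s; unfold gg; split_ifs <;> ring
      rw [Finset.sum_congr rfl (fun s _ => h2 s), Finset.sum_sub_distrib]
      simp_rw [mul_sub]
      rw [Finset.sum_sub_distrib]
      have h3 : ∑ s, gg a s x * y (s - 1) = ∑ q, y q * gg a (q + 1) x := by
        rw [← Equiv.sum_comp (Equiv.addRight (1 : ZMod r)) (fun s => gg a s x * y (s - 1))]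
        apply Finset.sum_congr rfl
        intro q _
        simp only [Equiv.coe_addRight, add_sub_cancel_right]
        ring
      have h4 : ∑ s, gg a s x * y s = ∑ q, y q * gg a q x := by
        apply Finset.sum_congr rfl
        intro q _
        ring
      rw [h3, h4]
    rw [h1]
    have h5 := layer_cake' (fun q : ZMod r => - y q) (fun q => gg a (q + 1) x - gg a q x) (by
      rw [Finset.sum_sub_distrib]
      have : ∑ q, gg a (q + 1) x = ∑ q, gg a q x :=
        Equiv.sum_comp (Equiv.addRight (1 : ZMod r)) (fun s => gg a s x)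
      rw [this, sub_self]) (by
      intro t
      have h6 := hW x (-t)
      rw [WW_eq] at h6
      have h7 : ∑ q, hh y q (-t) * (gg a (q + 1) x - gg a q x) =
          ∑ q ∈ Finset.univ.filter (fun q => - y q < t), (gg a (q + 1) x - gg a q x) := by
        rw [Finset.sum_filter]
        apply Finset.sum_congr rfl
        intro q _
        unfold hh
        by_cases h8 : -t < y q
        · rw [if_pos h8, if_pos (by linarith)]; ring
        · rw [if_neg h8, if_neg (by linarith)]; ring
      rw [h7] at h6
      exact h6)
    have h6 : ∑ q, -y q * (gg a (q + 1) x - gg a q x) =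
        - ∑ q, y q * (gg a (q + 1) x - gg a q x) := by
      rw [← Finset.sum_neg_distrib]
      apply Finset.sum_congr rfl
      intro q _
      ring
    rw [h6] at h5
    linarith
  -- second smallest abscissa
  have hne : (Finset.univ.erase s0).Nonempty := by
    refine ⟨s0 - 1, Finset.mem_erase.mpr ⟨sub_one_ne hr s0, Finset.mem_univ _⟩⟩
  obtain ⟨s1, hs1, hmin⟩ := Finset.exists_min_image (Finset.univ.erase s0) a hne
  have hs10 : s1 ≠ s0 := (Finset.mem_erase.mp hs1).1
  have hA : a s0 < a s1 := lt_of_le_of_ne (hs0 s1) (fun e => hs10 (ha e).symm)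
  set a' : ZMod r → ℝ := fun s => if s = s0 then a s1 else a s with ha'
  have hge : ∀ s, a s1 ≤ a' s := by
    intro s
    simp only [ha']
    split_ifs with h
    · exact le_rfl
    · exact hmin s (Finset.mem_erase.mpr ⟨h, Finset.mem_univ _⟩)
  have h1 := layer_cake' a' (fun s => y (s - 1) - y s) (by
    rw [Finset.sum_sub_distrib]
    have : ∑ s, y (s - 1) = ∑ s, y s := Equiv.sum_comp (Equiv.subRight (1 : ZMod r)) y
    rw [this, sub_self]) (by
    intro x
    by_cases hx : x ≤ a s1
    · have : Finset.univ.filter (fun s => a' s < x) = ∅ := by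
        apply Finset.filter_eq_empty_iff.mpr
        intro s _ h
        exact absurd (lt_of_le_of_lt (hge s) h) (not_lt.mpr hx)
      rw [this]; simp
    · push Not at hx
      have : Finset.univ.filter (fun s => a' s < x) = Finset.univ.filter (fun s => a s < x) := by
        apply Finset.filter_congr
        intro s _
        simp only [ha']
        split_ifs with h
        · rw [h]; constructor
          · intro _; linarith
          · intro _; exact hx
        · exact Iff.rfl
      rw [this]
      exact hFx x)
  have h2 : ∑ s, a s * (y s - y (s - 1)) =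
      - ∑ s, a' s * (y (s - 1) - y s) + (a s1 - a s0) * (y (s0 - 1) - y s0) := by
    have h3 : ∀ s : ZMod r, a s * (y s - y (s - 1)) = - (a' s * (y (s - 1) - y s)) +
        (if s = s0 then (a s1 - a s0) * (y (s0 - 1) - y s0) else 0) := by
      intro s
      simp only [ha']
      split_ifs with h
      · rw [h]; ring
      · ring
    rw [Finset.sum_congr rfl (fun s _ => h3 s), Finset.sum_add_distrib,
      Finset.sum_neg_distrib, Finset.sum_ite_eq' _ s0]
    simp
  rw [h2]
  have h4 : 0 < (a s1 - a s0) * (y (s0 - 1) - y s0) :=
    mul_pos (by linarith) (by linarith)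
  linarith

end Area

theorem rect_area_ne_zero (r : ℕ) [NeZero r] (hr : 2 ≤ r) (a y : ZMod r → ℝ)
    (ha : Function.Injective a) (hy : Function.Injective y)
    (hF : ∀ q s : ZMod r, s ≠ q → s ≠ q + 1 →
      ((y (s - 1) < y q ∧ y q < y s) ∨ (y s < y q ∧ y q < y (s - 1))) →
      0 < (a q - a s) * (a (q + 1) - a s)) :
    ∑ s, a s * (y s - y (s - 1)) ≠ 0 := by
  obtain ⟨s0, _, hs0⟩ := Finset.exists_min_image (Finset.univ : Finset (ZMod r)) a
    Finset.univ_nonempty
  have hs0' : ∀ t, a s0 ≤ a t := fun t => hs0 t (Finset.mem_univ t)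
  have hne : y (s0 - 1) ≠ y s0 := fun e => sub_one_ne hr s0 (hy e)
  rcases lt_or_gt_of_ne hne with h | h
  · -- apply the positive case to `- y`
    have h1 := area_pos (a := a) (y := fun s => - y s) hr ha
      (fun s t e => hy (neg_injective e)) (by
        intro q s h2 h3 h4
        apply hF q s h2 h3
        rcases h4 with h4 | h4
        · exact Or.inr ⟨by linarith [h4.2], by linarith [h4.1]⟩
        · exact Or.inl ⟨by linarith [h4.2], by linarith [h4.1]⟩) s0 hs0' (by linarith)
    have h2 : ∑ s, a s * (-y s - -y (s - 1)) = - ∑ s, a s * (y s - y (s - 1)) := by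
      rw [← Finset.sum_neg_distrib]
      apply Finset.sum_congr rfl
      intro s _
      ring
    rw [h2] at h1
    linarith
  · have h1 := area_pos hr ha hy hF s0 hs0' h
    linarith

end DPt
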